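import Mathlib.Combinatorics.Hall.Basic
import Mathlib.LinearAlgebra.Eigenspace.Basic
import Mathlib.LinearAlgebra.FiniteDimensional.Basic
import Mathlib.LinearAlgebra.FiniteDimensional.Lemmas
import Mathlib.GroupTheory.Perm.Basic
import Mathlib.GroupTheory.OrderOfElement
import Mathlib.Tactic

/-!
# Local quadratic forms on an `r`-edge-connected multigraph

The multigraph has the vertices `V` and the edges `e : E` joining `a e` and `b e`.  At the root `w`
there are `r` further variables.
-/

set_option autoImplicit false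

namespace Pool.Agent.Q320.EqTest.Alg

open Finset

variable {V E : Type} [Fintype V] [DecidableEq V] [Fintype E] [DecidableEq E]

/-- bilinear forms in the variables `E ⊕ Fin r` -/
abbrev Bil (E : Type) (r : ℕ) := (E ⊕ Fin r → ℚ) →ₗ[ℚ] (E ⊕ Fin r → ℚ) →ₗ[ℚ] ℚ

/-- the variables at the vertex `u` -/
def Star (a b : E → V) (w : V) {r : ℕ} (u : V) : E ⊕ Fin r → Prop
  | Sum.inl e => a e = u ∨ b e = u
  | Sum.inr _ => u = w

/-- families of forms, one at every vertex, positive semidefinite in total -/
structure Fam (a b : E → V) (w : V) (r : ℕ) (B : V → Bil E r) : Prop where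
  symm : ∀ u z z', B u z z' = B u z' z
  loc : ∀ u z z', (∀ i, Star a b w u i → z i = z' i) → B u z z = B u z' z'
  psd : ∀ z, 0 ≤ ∑ u, B u z z
  pd : ∀ z, (∀ i, z (Sum.inr i) = 0) → ∑ u, B u z z = 0 → z = 0

/-- on the critical points, the variables at `v` determine everything -/
def Inj (a b : E → V) (r : ℕ) (B : V → Bil E r) (v : V) : Prop :=
  ∀ z : E ⊕ Fin r → ℚ, (∀ e, ∑ u, B u z (Pi.single (Sum.inl e) 1) = 0) →
    (∀ e, (a e = v ∨ b e = v) → z (Sum.inl e) = 0) → z = 0

/-- the square of a linear form -/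
def sq {E : Type} {r : ℕ} (l : (E ⊕ Fin r → ℚ) →ₗ[ℚ] ℚ) : Bil E r := l.smulRight l

theorem sq_apply {E : Type} {r : ℕ} (l : (E ⊕ Fin r → ℚ) →ₗ[ℚ] ℚ) (z z' : E ⊕ Fin r → ℚ) :
    sq l z z' = l z * l z' := by
  simp [sq]

/-- Hall's theorem gives a permutation encoding disjoint paths from `w` to `v`. -/
theorem exists_perm (a b : E → V) (w v : V) (hwv : w ≠ v) (r : ℕ)
    (hcut : ∀ S : Finset V, w ∈ S → v ∉ S → r ≤ (univ.filter fun e => ¬ (a e ∈ S ↔ b e ∈ S)).card) :
    ∃ τ : Equiv.Perm (E ⊕ Fin r),
      (∀ i : Fin r, ∃ e : E, τ (Sum.inr i) = Sum.inl e ∧ (a e = w ∨ b e = w)) ∧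
      (∀ e e' : E, τ (Sum.inl e) = Sum.inl e' →
        ∃ u, (a e = u ∨ b e = u) ∧ (a e' = u ∨ b e' = u)) ∧
      (∀ (e : E) (j : Fin r), τ (Sum.inl e) = Sum.inr j → (a e = v ∨ b e = v)) := by
  classical
  let X := E ⊕ Fin r
  let t : X → Finset X := fun x => Finset.univ.filter fun y =>
    match x, y with
    | Sum.inl e, Sum.inl e' => ∃ u, (a e = u ∨ b e = u) ∧ (a e' = u ∨ b e' = u)
    | Sum.inl e, Sum.inr _ => a e = v ∨ b e = v
    | Sum.inr _, Sum.inl e' => a e' = w ∨ b e' = w
    | Sum.inr _, Sum.inr _ => False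
  have hall : ∀ A : Finset X, A.card ≤ (A.biUnion t).card := by
    intro A
    have hA : A.card = A.toLeft.card + A.toRight.card :=
      (Finset.card_toLeft_add_card_toRight).symm
    have hB : (A.biUnion t).card = (A.biUnion t).toLeft.card + (A.biUnion t).toRight.card :=
      (Finset.card_toLeft_add_card_toRight).symm
    have hAB : A.toLeft ⊆ (A.biUnion t).toLeft := by
      intro e he
      rw [Finset.mem_toLeft] at he ⊢
      refine Finset.mem_biUnion.2 ⟨_, he, ?_⟩
      simp only [t, Finset.mem_filter, Finset.mem_univ, true_and]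
      exact ⟨a e, Or.inl rfl, Or.inl rfl⟩
    have hAm : A.toRight.card ≤ r := by
      have := Finset.card_le_univ A.toRight
      simpa using this
    by_cases hA2 : A.toRight = ∅
    · have := Finset.card_le_card hAB
      rw [hA2, Finset.card_empty] at hA
      omega
    · obtain ⟨i0, hi0⟩ := Finset.nonempty_iff_ne_empty.2 hA2
      rw [Finset.mem_toRight] at hi0
      by_cases hv : ∃ e ∈ A.toLeft, (a e = v ∨ b e = v)
      · obtain ⟨e, he, hve⟩ := hv
        rw [Finset.mem_toLeft] at he
        have hB2 : (A.biUnion t).toRight = Finset.univ := by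
          ext j
          simp only [Finset.mem_toRight, Finset.mem_univ, iff_true]
          refine Finset.mem_biUnion.2 ⟨_, he, ?_⟩
          simp [t, hve]
        have := Finset.card_le_card hAB
        rw [hB2, Finset.card_univ, Fintype.card_fin] at hB
        omega
      · push Not at hv
        let S : Finset V := insert w (Finset.univ.filter fun z => ∃ e ∈ A.toLeft, (a e = z ∨ b e = z))
        have hvS : v ∉ S := by
          simp only [S, Finset.mem_insert, Finset.mem_filter, Finset.mem_univ, true_and, not_or,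
            not_exists, not_and]
          exact ⟨fun h => hwv h.symm, fun e he => hv e he⟩
        have hcut' := hcut S (Finset.mem_insert_self _ _) hvS
        let C' : Finset E := Finset.univ.filter fun e => ¬ (a e ∈ S ↔ b e ∈ S)
        have hcut'' : r ≤ C'.card := by convert hcut'
        have hsub : A.toLeft ∪ C' ⊆ (A.biUnion t).toLeft := by
          apply Finset.union_subset hAB
          intro e he
          simp only [C', Finset.mem_filter, Finset.mem_univ, true_and] at he
          have hxS : ∃ x, (a e = x ∨ b e = x) ∧ x ∈ S := by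
            by_cases h1 : a e ∈ S
            · exact ⟨a e, Or.inl rfl, h1⟩
            · exact ⟨b e, Or.inr rfl, by tauto⟩
          obtain ⟨x, hxe, hxS⟩ := hxS
          rw [Finset.mem_toLeft]
          rcases Finset.mem_insert.1 hxS with rfl | hxS
          · refine Finset.mem_biUnion.2 ⟨_, hi0, ?_⟩
            simp [t, hxe]
          · obtain ⟨e0, he0, hx0⟩ := (Finset.mem_filter.1 hxS).2
            rw [Finset.mem_toLeft] at he0
            refine Finset.mem_biUnion.2 ⟨_, he0, ?_⟩
            simp only [t, Finset.mem_filter, Finset.mem_univ, true_and]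
            exact ⟨x, hx0, hxe⟩
        have hdisj : Disjoint A.toLeft C' := by
          rw [Finset.disjoint_left]
          intro e he he'
          simp only [C', Finset.mem_filter, Finset.mem_univ, true_and] at he'
          apply he'
          have h1 : a e ∈ S := Finset.mem_insert_of_mem
            (Finset.mem_filter.2 ⟨Finset.mem_univ _, e, he, Or.inl rfl⟩)
          have h2 : b e ∈ S := Finset.mem_insert_of_mem
            (Finset.mem_filter.2 ⟨Finset.mem_univ _, e, he, Or.inr rfl⟩)
          exact ⟨fun _ => h2, fun _ => h1⟩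
        have := Finset.card_le_card hsub
        rw [Finset.card_union_of_disjoint hdisj] at this
        omega
  obtain ⟨f, hf, hft⟩ := (Finset.all_card_le_biUnion_card_iff_exists_injective t).1 hall
  have hbij : Function.Bijective f := Finite.injective_iff_bijective.1 hf
  let τ : Equiv.Perm X := Equiv.ofBijective f hbij
  have hτ : ∀ x, τ x = f x := fun _ => rfl
  refine ⟨τ, ?_, ?_, ?_⟩
  · intro i
    have := hft (Sum.inr i)
    rw [← hτ] at this
    rcases hy : τ (Sum.inr i) with e | j
    · rw [hy] at this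
      simp only [t, Finset.mem_filter, Finset.mem_univ, true_and] at this
      exact ⟨e, rfl, this⟩
    · rw [hy] at this
      simp [t] at this
  · intro e e' hy
    have := hft (Sum.inl e)
    rw [← hτ, hy] at this
    simpa only [t, Finset.mem_filter, Finset.mem_univ, true_and] using this
  · intro e j hy
    have := hft (Sum.inl e)
    rw [← hτ, hy] at this
    simpa only [t, Finset.mem_filter, Finset.mem_univ, true_and] using this

theorem bil_expand {r : ℕ} (B : Bil E r) (z z' : E ⊕ Fin r → ℚ) :
    B z z' = ∑ e, z' (Sum.inl e) * B z (Pi.single (Sum.inl e) 1) +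
      ∑ i, z' (Sum.inr i) * B z (Pi.single (Sum.inr i) 1) := by
  have h1 : z' = ∑ j, z' j • (Pi.single j (1 : ℚ) : E ⊕ Fin r → ℚ) := by
    funext k
    simp [Finset.sum_apply, Pi.single_apply]
  conv_lhs => rw [h1]
  rw [map_sum, Fintype.sum_sum_type]
  simp only [map_smul, smul_eq_mul]

/-- The forms built from disjoint paths. -/
theorem exists_single (a b : E → V) (w v : V) (hwv : w ≠ v) (r : ℕ)
    (hcut : ∀ S : Finset V, w ∈ S → v ∉ S → r ≤ (univ.filter fun e => ¬ (a e ∈ S ↔ b e ∈ S)).card) :
    ∃ B : V → Bil E r, Fam a b w r B ∧ Inj a b r B v := by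
  classical
  obtain ⟨τ, h1, h2, h3⟩ := exists_perm a b w v hwv r hcut
  -- the place of the pair `x, τ x`
  have hloc : ∀ x : E ⊕ Fin r, ∃ u : V, ∀ e', τ x = Sum.inl e' →
      (Star a b w u x ∧ Star (r := r) a b w u (Sum.inl e')) := by
    intro x
    rcases x with e | i
    · rcases hy : τ (Sum.inl e) with e' | j
      · obtain ⟨u, hu, hu'⟩ := h2 e e' hy
        refine ⟨u, fun e'' he'' => ?_⟩
        rw [Sum.inl.injEq] at he''
        subst he''
        exact ⟨hu, hu'⟩
      · exact ⟨w, fun e'' he'' => by cases he''⟩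
    · obtain ⟨e, he, he'⟩ := h1 i
      refine ⟨w, fun e'' he'' => ?_⟩
      rw [he, Sum.inl.injEq] at he''
      subst he''
      exact ⟨rfl, he'⟩
  choose loc hloc using hloc
  let pr : (E ⊕ Fin r) → ((E ⊕ Fin r → ℚ) →ₗ[ℚ] ℚ) := fun x => LinearMap.proj x
  let T : Finset (E ⊕ Fin r) := univ.filter fun x => (τ x).isLeft
  let B : V → Bil E r := fun u => ∑ x ∈ T.filter (fun x => loc x = u), sq (pr x - pr (τ x)) +
    ∑ e ∈ univ.filter (fun e => a e = u), sq (pr (Sum.inl e))
  have hB : ∀ u z z', B u z z' = ∑ x ∈ T.filter (fun x => loc x = u),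
      (z x - z (τ x)) * (z' x - z' (τ x)) +
      ∑ e ∈ univ.filter (fun e => a e = u), z (Sum.inl e) * z' (Sum.inl e) := by
    intro u z z'
    simp only [B, LinearMap.add_apply, LinearMap.sum_apply, sq_apply, pr, LinearMap.sub_apply,
      LinearMap.proj_apply]
  have hT : ∀ z z', ∑ u, B u z z' = ∑ x ∈ T, (z x - z (τ x)) * (z' x - z' (τ x)) +
      ∑ e, z (Sum.inl e) * z' (Sum.inl e) := by
    intro z z'
    simp_rw [hB]
    rw [Finset.sum_add_distrib]
    congr 1
    · exact Finset.sum_fiberwise T loc _
    · exact Finset.sum_fiberwise univ a _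
  have hpsd : ∀ z : E ⊕ Fin r → ℚ, 0 ≤ ∑ x ∈ T, (z x - z (τ x)) * (z x - z (τ x)) := fun z =>
    Finset.sum_nonneg fun x _ => mul_self_nonneg _
  have hpsd' : ∀ z : E ⊕ Fin r → ℚ, 0 ≤ ∑ e, z (Sum.inl e) * z (Sum.inl e) := fun z =>
    Finset.sum_nonneg fun x _ => mul_self_nonneg _
  have hpd : ∀ z : E ⊕ Fin r → ℚ, (∀ i, z (Sum.inr i) = 0) → ∑ u, B u z z = 0 → z = 0 := by
    intro z hz h0
    rw [hT] at h0
    have h4 : ∑ e, z (Sum.inl e) * z (Sum.inl e) = 0 := by
      have := hpsd z
      have := hpsd' z
      linarith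
    rw [Finset.sum_eq_zero_iff_of_nonneg (fun e _ => mul_self_nonneg _)] at h4
    funext j
    rcases j with e | i
    · exact mul_self_eq_zero.1 (h4 e (mem_univ e))
    · exact hz i
  refine ⟨B, ⟨?_, ?_, ?_, hpd⟩, ?_⟩
  · intro u z z'
    rw [hB, hB]
    congr 1
    · exact Finset.sum_congr rfl fun x _ => mul_comm _ _
    · exact Finset.sum_congr rfl fun x _ => mul_comm _ _
  · intro u z z' hzz
    rw [hB, hB]
    congr 1
    · refine Finset.sum_congr rfl fun x hx => ?_
      rw [mem_filter] at hx
      obtain ⟨hx1, hx2⟩ := hx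
      simp only [T, mem_filter, mem_univ, true_and] at hx1
      obtain ⟨e', he'⟩ := Sum.isLeft_iff.1 hx1
      obtain ⟨h5, h6⟩ := hloc x e' he'
      rw [hx2] at h5 h6
      rw [he', hzz _ h5, hzz _ h6]
    · refine Finset.sum_congr rfl fun e he => ?_
      rw [mem_filter] at he
      rw [hzz (Sum.inl e) (Or.inl he.2)]
  · intro z
    rw [hT]
    exact add_nonneg (hpsd z) (hpsd' z)
  · intro z hz hzv
    -- the gradient
    have hgrad : ∀ e, (if (τ (Sum.inl e)).isLeft then z (Sum.inl e) - z (τ (Sum.inl e)) else 0) +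
        (z (Sum.inl e) - z (τ.symm (Sum.inl e))) + z (Sum.inl e) = 0 := by
      intro e
      have h4 := hz e
      rw [hT] at h4
      have h5 : ∑ e', z (Sum.inl e') *
          (Pi.single (Sum.inl e) (1 : ℚ) : E ⊕ Fin r → ℚ) (Sum.inl e') = z (Sum.inl e) := by
        rw [Finset.sum_eq_single e]
        · simp
        · intro e' _ he'
          rw [Pi.single_eq_of_ne (by simpa using he')]
          simp
        · intro h; exact absurd (mem_univ e) h
      rw [h5] at h4
      have h6 : ∑ x ∈ T, (z x - z (τ x)) *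
          ((Pi.single (Sum.inl e) (1 : ℚ) : E ⊕ Fin r → ℚ) x -
            (Pi.single (Sum.inl e) (1 : ℚ) : E ⊕ Fin r → ℚ) (τ x)) =
          (if (τ (Sum.inl e)).isLeft then z (Sum.inl e) - z (τ (Sum.inl e)) else 0) +
          (z (Sum.inl e) - z (τ.symm (Sum.inl e))) := by
        have h7 : ∀ x, (z x - z (τ x)) *
          ((Pi.single (Sum.inl e) (1 : ℚ) : E ⊕ Fin r → ℚ) x -
            (Pi.single (Sum.inl e) (1 : ℚ) : E ⊕ Fin r → ℚ) (τ x)) =
            (if x = Sum.inl e then z (Sum.inl e) - z (τ (Sum.inl e)) else 0) +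
            (if x = τ.symm (Sum.inl e) then z (Sum.inl e) - z (τ.symm (Sum.inl e)) else 0) := by
          intro x
          rw [mul_sub, Pi.single_apply, Pi.single_apply]
          have h8 : τ x = Sum.inl e ↔ x = τ.symm (Sum.inl e) := by
            rw [Equiv.eq_symm_apply]
          rw [sub_eq_add_neg]
          congr 1
          · by_cases hx : x = Sum.inl e
            · subst hx; simp
            · simp [hx]
          · by_cases hx : x = τ.symm (Sum.inl e)
            · have h9 := h8.2 hx
              rw [if_pos h9, if_pos hx, h9, ← hx]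
              ring
            · have h9 : ¬ τ x = Sum.inl e := fun h => hx (h8.1 h)
              rw [if_neg h9, if_neg hx]
              ring
        simp_rw [h7]
        rw [Finset.sum_add_distrib, Finset.sum_ite_eq', Finset.sum_ite_eq']
        congr 1
        · simp only [T, mem_filter, mem_univ, true_and]
        · simp [T]
      rw [h6] at h4
      exact h4
    -- zeros propagate backwards
    have hback : ∀ e, z (Sum.inl e) = 0 → (∀ e', τ (Sum.inl e) = Sum.inl e' → z (Sum.inl e') = 0) →
        z (τ.symm (Sum.inl e)) = 0 := by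
      intro e he he'
      have h4 := hgrad e
      rw [he] at h4
      have h5 : (if (τ (Sum.inl e)).isLeft then (0 : ℚ) - z (τ (Sum.inl e)) else 0) = 0 := by
        split_ifs with h6
        · obtain ⟨e', h7⟩ := Sum.isLeft_iff.1 h6
          rw [h7, he' e' h7]; ring
        · rfl
      rw [h5] at h4
      linarith
    have hx0 : ∀ i, z (Sum.inr i) = 0 := by
      intro i
      set x : ℕ → (E ⊕ Fin r) := fun n => (τ ^ n) (Sum.inr i) with hx
      have hx0 : x 0 = Sum.inr i := by simp [hx]
      have hxs : ∀ n, x (n + 1) = τ (x n) := by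
        intro n
        simp only [hx]
        rw [pow_succ', Equiv.Perm.mul_apply]
      have hex : ∃ n, 1 ≤ n ∧ ∃ j, x n = Sum.inr j := by
        refine ⟨orderOf τ, orderOf_pos τ, i, ?_⟩
        simp [hx, pow_orderOf_eq_one]
      obtain ⟨M, ⟨hM1, jM, hjM⟩, hmin⟩ : ∃ M, (1 ≤ M ∧ ∃ j, x M = Sum.inr j) ∧
          ∀ n < M, ¬ (1 ≤ n ∧ ∃ j, x n = Sum.inr j) :=
        ⟨Nat.find hex, Nat.find_spec hex, fun n hn => Nat.find_min hex hn⟩
      have hinl : ∀ n, 1 ≤ n → n < M → ∃ e, x n = Sum.inl e := by
        intro n hn hnM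
        rcases hxn : x n with e | j
        · exact ⟨e, rfl⟩
        · exact absurd ⟨hn, j, hxn⟩ (hmin n hnM)
      have hM2 : 2 ≤ M := by
        by_contra hlt
        have : M = 1 := by omega
        obtain ⟨e, he, _⟩ := h1 i
        rw [this] at hjM
        rw [show (1 : ℕ) = 0 + 1 from rfl, hxs, hx0, he] at hjM
        cases hjM
      have hind : ∀ k, k + 1 < M → ∃ e, x (M - 1 - k) = Sum.inl e ∧ z (Sum.inl e) = 0 ∧
          ∀ e', τ (Sum.inl e) = Sum.inl e' → z (Sum.inl e') = 0 := by
        intro k
        induction k with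
        | zero =>
          intro _
          obtain ⟨e, he⟩ := hinl (M - 1) (by omega) (by omega)
          have h4 : τ (Sum.inl e) = Sum.inr jM := by
            rw [← he, ← hxs, show M - 1 + 1 = M by omega, hjM]
          refine ⟨e, he, hzv e (h3 e jM h4), ?_⟩
          intro e' he'
          rw [h4] at he'
          cases he'
        | succ k ih =>
          intro hk
          obtain ⟨e, he, hze, hze'⟩ := ih (by omega)
          obtain ⟨e₂, he₂⟩ := hinl (M - 1 - (k + 1)) (by omega) (by omega)
          have h4 : τ (Sum.inl e₂) = Sum.inl e := by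
            rw [← he₂, ← hxs, show M - 1 - (k + 1) + 1 = M - 1 - k by omega, he]
          refine ⟨e₂, he₂, ?_, ?_⟩
          · have := hback e hze hze'
            rw [← h4, Equiv.symm_apply_apply] at this
            exact this
          · intro e' he'
            rw [h4, Sum.inl.injEq] at he'
            subst he'
            exact hze
      obtain ⟨e, he, hze, hze'⟩ := hind (M - 2) (by omega)
      have h4 : τ (Sum.inr i) = Sum.inl e := by
        rw [← hx0, ← hxs, show (0 : ℕ) + 1 = M - 1 - (M - 2) by omega, he]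
      have := hback e hze hze'
      rw [← h4, Equiv.symm_apply_apply] at this
      exact this
    apply hpd z hx0
    have h7 : ∀ u, B u z z = ∑ e, z (Sum.inl e) * B u z (Pi.single (Sum.inl e) 1) := by
      intro u
      rw [bil_expand (B u) z z]
      simp [hx0]
    simp_rw [h7]
    rw [Finset.sum_comm]
    refine Finset.sum_eq_zero fun e _ => ?_
    rw [← Finset.mul_sum, hz e, mul_zero]

end Pool.Agent.Q320.EqTest.Alg
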