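import Pool.Agent.Q320.EqTest.Alg
import Mathlib.LinearAlgebra.Eigenspace.Minpoly

/-!
# One family of forms which is good at all vertices
-/

set_option autoImplicit false
set_option linter.unusedSectionVars false

namespace Pool.Agent.Q320.EqTest.Alg

open Finset

variable {V E : Type} [Fintype V] [DecidableEq V] [Fintype E] [DecidableEq E]

theorem finite_bad {W W' : Type} [AddCommGroup W] [Module ℚ W] [FiniteDimensional ℚ W]
    [AddCommGroup W'] [Module ℚ W'] (f g : W →ₗ[ℚ] W') (hf : ∀ z, f z = 0 → z = 0) :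
    {s : ℚ | ¬ ∀ z, f z + s • g z = 0 → z = 0}.Finite := by
  obtain ⟨h, hh⟩ := LinearMap.exists_leftInverse_of_injective f
    (LinearMap.ker_eq_bot'.2 hf)
  have hfin := Module.End.finite_hasEigenvalue (h.comp g)
  refine ((Set.finite_singleton (0 : ℚ)).union (hfin.image fun μ => -μ⁻¹)).subset ?_
  intro s hs
  rw [Set.mem_ofPred_eq] at hs
  push Not at hs
  obtain ⟨z, hz, hz0⟩ := hs
  by_cases hs0 : s = 0
  · left; exact hs0
  · right
    refine ⟨-s⁻¹, ?_, ?_⟩
    · apply Module.End.hasEigenvalue_of_hasEigenvector (x := z)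
      rw [Module.End.hasEigenvector_iff, Module.End.mem_eigenspace_iff]
      refine ⟨?_, hz0⟩
      have h1 : h (f z) = z := by
        have := congrArg (fun φ => φ z) hh
        simpa using this
      have h2 : h (f z + s • g z) = 0 := by rw [hz, map_zero]
      rw [map_add, h1, map_smul] at h2
      have h3 : (h.comp g) z = h (g z) := rfl
      rw [h3]
      have h4 : s • h (g z) = -z := by
        rw [eq_neg_iff_add_eq_zero, add_comm]; exact h2
      calc h (g z) = s⁻¹ • (s • h (g z)) := by rw [smul_smul, inv_mul_cancel₀ hs0, one_smul]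
        _ = -s⁻¹ • z := by rw [h4, smul_neg, neg_smul]
    · simp only
      rw [inv_neg, inv_inv, neg_neg]

/-- the map whose injectivity is `Inj` -/
noncomputable def Phi (a b : E → V) (r : ℕ) (B : V → Bil E r) (v : V) :
    (E ⊕ Fin r → ℚ) →ₗ[ℚ] ((E → ℚ) × (E → ℚ)) :=
  LinearMap.prod
    (LinearMap.pi fun e => (∑ u, B u).flip (Pi.single (Sum.inl e) 1))
    (LinearMap.pi fun e => if a e = v ∨ b e = v then LinearMap.proj (Sum.inl e) else 0)

noncomputable def Psi (r : ℕ) (B : V → Bil E r) :
    (E ⊕ Fin r → ℚ) →ₗ[ℚ] ((E → ℚ) × (E → ℚ)) :=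
  LinearMap.prod
    (LinearMap.pi fun e => (∑ u, B u).flip (Pi.single (Sum.inl e) 1)) 0

theorem phi_eq_zero (a b : E → V) (r : ℕ) (B : V → Bil E r) (v : V) (z : E ⊕ Fin r → ℚ) :
    Phi a b r B v z = 0 ↔ (∀ e, ∑ u, B u z (Pi.single (Sum.inl e) 1) = 0) ∧
      ∀ e, (a e = v ∨ b e = v) → z (Sum.inl e) = 0 := by
  unfold Phi
  rw [LinearMap.prod_apply]
  refine Iff.trans (Prod.mk_eq_zero) ?_
  constructor
  · rintro ⟨h1, h2⟩
    refine ⟨fun e => ?_, fun e he => ?_⟩
    · have := congrFun h1 e
      simpa [LinearMap.sum_apply] using this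
    · have := congrFun h2 e
      simpa [he] using this
  · rintro ⟨h1, h2⟩
    refine ⟨?_, ?_⟩
    · funext e
      simpa [LinearMap.sum_apply] using h1 e
    · funext e
      by_cases he : a e = v ∨ b e = v
      · simpa [he] using h2 e he
      · simp [he]

theorem inj_iff (a b : E → V) (r : ℕ) (B : V → Bil E r) (v : V) :
    Inj a b r B v ↔ ∀ z, Phi a b r B v z = 0 → z = 0 := by
  unfold Inj
  refine forall_congr' fun z => ?_
  rw [phi_eq_zero]
  tauto

theorem finite_bad_inj (a b : E → V) (r : ℕ) (B B' : V → Bil E r) (v : V)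
    (h : Inj a b r B v) : {s : ℚ | ¬ Inj a b r (fun u => B u + s • B' u) v}.Finite := by
  rw [inj_iff] at h
  refine (finite_bad (Phi a b r B v) (Psi r B') h).subset ?_
  intro s hs hz
  apply hs
  rw [inj_iff]
  intro z hz0
  apply hz
  rw [← hz0]
  unfold Phi Psi
  ext e
  · simp [LinearMap.sum_apply, Finset.sum_add_distrib, Finset.mul_sum]
  · simp

theorem inj_scale (a b : E → V) (r : ℕ) (B B' : V → Bil E r) (v : V) (s : ℚ) (hs : s ≠ 0)
    (h : Inj a b r (fun u => B' u + s⁻¹ • B u) v) : Inj a b r (fun u => B u + s • B' u) v := by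
  intro z hz hzv
  refine h z (fun e => ?_) hzv
  have h1 := hz e
  have h2 : ∑ u, (B' u + s⁻¹ • B u) z (Pi.single (Sum.inl e) 1) =
      s⁻¹ * ∑ u, (B u + s • B' u) z (Pi.single (Sum.inl e) 1) := by
    rw [Finset.mul_sum]
    refine Finset.sum_congr rfl fun u _ => ?_
    simp only [LinearMap.add_apply, LinearMap.smul_apply, smul_eq_mul]
    field_simp
    ring
  rw [h2, h1, mul_zero]

theorem Fam.combine {a b : E → V} {w : V} {r : ℕ} {B B' : V → Bil E r} (h : Fam a b w r B)
    (h' : Fam a b w r B') (s : ℚ) (hs : 0 ≤ s) : Fam a b w r (fun u => B u + s • B' u) := by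
  have key : ∀ z, ∑ u, (B u + s • B' u) z z = ∑ u, B u z z + s * ∑ u, B' u z z := by
    intro z
    simp [Finset.sum_add_distrib, Finset.mul_sum]
  refine ⟨?_, ?_, ?_, ?_⟩
  · intro u z z'
    simp only [LinearMap.add_apply, LinearMap.smul_apply, h.symm u z z', h'.symm u z z']
  · intro u z z' hz
    simp only [LinearMap.add_apply, LinearMap.smul_apply, h.loc u z z' hz, h'.loc u z z' hz]
  · intro z
    rw [key]
    have := h.psd z
    have := h'.psd z
    positivity
  · intro z hz h0
    rw [key] at h0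
    have h1 := h.psd z
    have h2 := mul_nonneg hs (h'.psd z)
    exact h.pd z hz (by linarith)

theorem exists_base (a b : E → V) (w : V) (r : ℕ) : ∃ B : V → Bil E r, Fam a b w r B := by
  classical
  let B : V → Bil E r := fun u =>
    ∑ e ∈ univ.filter (fun e => a e = u), sq (LinearMap.proj (Sum.inl e))
  have hB : ∀ u z z', B u z z' =
      ∑ e ∈ univ.filter (fun e => a e = u), z (Sum.inl e) * z' (Sum.inl e) := by
    intro u z z'
    simp only [B, LinearMap.sum_apply, sq_apply, LinearMap.proj_apply]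
  have hT : ∀ z z', ∑ u, B u z z' = ∑ e, z (Sum.inl e) * z' (Sum.inl e) := by
    intro z z'
    simp_rw [hB]
    exact Finset.sum_fiberwise univ a _
  refine ⟨B, ?_, ?_, ?_, ?_⟩
  · intro u z z'
    rw [hB, hB]
    exact Finset.sum_congr rfl fun x _ => mul_comm _ _
  · intro u z z' hzz
    rw [hB, hB]
    refine Finset.sum_congr rfl fun e he => ?_
    rw [mem_filter] at he
    rw [hzz (Sum.inl e) (Or.inl he.2)]
  · intro z
    rw [hT]
    exact Finset.sum_nonneg fun x _ => mul_self_nonneg _
  · intro z hz h0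
    rw [hT, Finset.sum_eq_zero_iff_of_nonneg (fun e _ => mul_self_nonneg _)] at h0
    funext j
    rcases j with e | i
    · exact mul_self_eq_zero.1 (h0 e (mem_univ e))
    · exact hz i

/-- A family that is good at all vertices other than the root. -/
theorem exists_fam (a b : E → V) (w : V) (r : ℕ)
    (hcut : ∀ S : Finset V, w ∈ S → S ≠ univ → r ≤ (univ.filter fun e => ¬ (a e ∈ S ↔ b e ∈ S)).card) :
    ∃ B : V → Bil E r, Fam a b w r B ∧ ∀ v, v ≠ w → Inj a b r B v := by
  classical
  have key : ∀ A : Finset V, w ∉ A → ∃ B : V → Bil E r, Fam a b w r B ∧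
      ∀ v ∈ A, Inj a b r B v := by
    intro A
    induction A using Finset.induction_on with
    | empty =>
      intro _
      obtain ⟨B, hB⟩ := exists_base a b w r
      exact ⟨B, hB, by simp⟩
    | insert v' A hv' ih =>
      intro hw
      rw [mem_insert, not_or] at hw
      obtain ⟨B, hB, hBA⟩ := ih hw.2
      obtain ⟨B', hB', hB'v⟩ := exists_single a b w v' hw.1 r
        (fun S hS hS' => hcut S hS (fun h => hS' (h ▸ mem_univ v')))
      have hfin : (⋃ v ∈ A, {s : ℚ | ¬ Inj a b r (fun u => B u + s • B' u) v}).Finite :=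
        Set.Finite.biUnion A.finite_toSet fun v hv => finite_bad_inj a b r B B' v (hBA v hv)
      have hfin' := (finite_bad_inj a b r B' B v' hB'v).image (fun t : ℚ => t⁻¹)
      obtain ⟨s, hs0, hs⟩ := ((Set.Ioi_infinite (0 : ℚ)).sdiff (hfin.union hfin')).nonempty
      rw [Set.mem_union, not_or] at hs
      refine ⟨fun u => B u + s • B' u, hB.combine hB' s (le_of_lt hs0), ?_⟩
      intro v hv
      rw [mem_insert] at hv
      rcases hv with rfl | hv
      · apply inj_scale a b r B B' v s (ne_of_gt hs0)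
        by_contra hcon
        exact hs.2 ⟨s⁻¹, hcon, inv_inv s⟩
      · by_contra hcon
        exact hs.1 (Set.mem_biUnion hv hcon)
  obtain ⟨B, hB, h⟩ := key (univ.erase w) (by simp)
  exact ⟨B, hB, fun v hv => h v (by simp [hv])⟩

/-- The critical points of the total form. -/
theorem exists_solution {a b : E → V} {w : V} {r : ℕ} {B : V → Bil E r} (hB : Fam a b w r B) :
    ∃ Y : (Fin r → ℚ) →ₗ[ℚ] (E ⊕ Fin r → ℚ), (∀ x i, Y x (Sum.inr i) = x i) ∧
      ∀ x e, ∑ u, B u (Y x) (Pi.single (Sum.inl e) 1) = 0 := by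
  classical
  let T : Bil E r := ∑ u, B u
  have hT : ∀ z z', T z z' = ∑ u, B u z z' := by
    intro z z'
    simp only [T, LinearMap.sum_apply]
  let ext : (E → ℚ) →ₗ[ℚ] (E ⊕ Fin r → ℚ) :=
    { toFun := fun y => Sum.elim y 0
      map_add' := by
        intro y y'; funext j; rcases j with e | i <;> simp
      map_smul' := by
        intro c y; funext j; rcases j with e | i <;> simp }
  let ext' : (Fin r → ℚ) →ₗ[ℚ] (E ⊕ Fin r → ℚ) :=
    { toFun := fun y => Sum.elim 0 y
      map_add' := by
        intro y y'; funext j; rcases j with e | i <;> simp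
      map_smul' := by
        intro c y; funext j; rcases j with e | i <;> simp }
  let grad : (E ⊕ Fin r → ℚ) →ₗ[ℚ] (E → ℚ) :=
    LinearMap.pi fun e => T.flip (Pi.single (Sum.inl e) 1)
  have hgrad : ∀ z e, grad z e = T z (Pi.single (Sum.inl e) 1) := fun z e => rfl
  let P : (E → ℚ) →ₗ[ℚ] (E → ℚ) := grad.comp ext
  have hP : Function.Injective P := by
    rw [← LinearMap.ker_eq_bot, LinearMap.ker_eq_bot']
    intro y hy
    have h1 : ext y = 0 := by
      apply hB.pd
      · intro i; rfl
      · rw [← hT, bil_expand T]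
        have h2 : ∀ e, T (ext y) (Pi.single (Sum.inl e) 1) = 0 := by
          intro e
          have := congrFun hy e
          exact this
        have h3 : ∀ i, ext y (Sum.inr i) = 0 := fun i => rfl
        simp [h2, h3]
    funext e
    exact congrFun h1 (Sum.inl e)
  let Pe := LinearEquiv.ofInjectiveEndo P hP
  have hPe : ∀ y, P (Pe.symm y) = y := fun y => Pe.apply_symm_apply y
  let Y : (Fin r → ℚ) →ₗ[ℚ] (E ⊕ Fin r → ℚ) :=
    ext' - ext.comp ((Pe.symm : (E → ℚ) →ₗ[ℚ] (E → ℚ)).comp (grad.comp ext'))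
  refine ⟨Y, ?_, ?_⟩
  · intro x i
    simp [Y, ext, ext']
  · intro x e
    rw [← hT, ← hgrad]
    have : grad (Y x) = 0 := by
      simp only [Y, LinearMap.sub_apply, LinearMap.comp_apply, map_sub]
      have := hPe (grad (ext' x))
      simp only [P, LinearMap.comp_apply] at this
      rw [sub_eq_zero]
      exact this.symm
    rw [this]; rfl

/-- **Rigidity**: consistent labels and equal values of the forms force equal inputs. -/
theorem rigid {a b : E → V} {w : V} {r : ℕ} {B : V → Bil E r} (hB : Fam a b w r B)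
    (hinj : ∀ v, v ≠ w → Inj a b r B v) (Y : (Fin r → ℚ) →ₗ[ℚ] (E ⊕ Fin r → ℚ))
    (hY1 : ∀ x i, Y x (Sum.inr i) = x i)
    (hY2 : ∀ x e, ∑ u, B u (Y x) (Pi.single (Sum.inl e) 1) = 0)
    (x : V → (Fin r → ℚ))
    (hlab : ∀ e, Y (x (a e)) (Sum.inl e) = Y (x (b e)) (Sum.inl e))
    (hq : ∀ u, B u (Y (x u)) (Y (x u)) = B u (Y (x w)) (Y (x w))) :
    ∀ u, x u = x w := by
  classical
  let z : E ⊕ Fin r → ℚ := Sum.elim (fun e => Y (x (a e)) (Sum.inl e)) (x w)
  have hz : ∀ u, B u z z = B u (Y (x w)) (Y (x w)) := by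
    intro u
    rw [← hq u]
    apply hB.loc
    intro i hi
    rcases i with e | i
    · rcases hi with hi | hi
      · show Y (x (a e)) (Sum.inl e) = _
        rw [hi]
      · show Y (x (a e)) (Sum.inl e) = _
        rw [hlab e, hi]
    · have hi' : u = w := hi
      subst hi'
      show x u i = _
      rw [hY1]
  have hd : z - Y (x w) = 0 := by
    apply hB.pd
    · intro i
      show x w i - Y (x w) (Sum.inr i) = 0
      rw [hY1, sub_self]
    · have h1 : ∀ u, B u (z - Y (x w)) (z - Y (x w)) =
          B u z z - B u (Y (x w)) (Y (x w)) - 2 * B u (Y (x w)) (z - Y (x w)) := by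
        intro u
        simp only [map_sub, LinearMap.sub_apply]
        rw [hB.symm u z (Y (x w))]
        ring
      have h2 : ∑ u, B u (Y (x w)) (z - Y (x w)) = 0 := by
        have h3 : ∀ u, B u (Y (x w)) (z - Y (x w)) =
            ∑ e, (z - Y (x w)) (Sum.inl e) * B u (Y (x w)) (Pi.single (Sum.inl e) 1) := by
          intro u
          rw [bil_expand (B u) _ (z - Y (x w))]
          have h4 : ∀ i, (z - Y (x w)) (Sum.inr i) = 0 := by
            intro i
            show x w i - Y (x w) (Sum.inr i) = 0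
            rw [hY1, sub_self]
          simp only [h4, zero_mul, Finset.sum_const_zero, add_zero]
        simp_rw [h3]
        rw [Finset.sum_comm]
        refine Finset.sum_eq_zero fun e _ => ?_
        rw [← Finset.mul_sum, hY2, mul_zero]
      simp_rw [h1]
      rw [Finset.sum_sub_distrib, Finset.sum_sub_distrib, ← Finset.mul_sum, h2, mul_zero, sub_zero,
        sub_eq_zero]
      exact Finset.sum_congr rfl fun u _ => hz u
  have hz' : z = Y (x w) := sub_eq_zero.1 hd
  intro u
  by_cases hu : u = w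
  · rw [hu]
  · have h1 : Y (x u) - Y (x w) = 0 := by
      apply hinj u hu
      · intro e
        simp only [map_sub, LinearMap.sub_apply, Finset.sum_sub_distrib, hY2, sub_self]
      · intro e he
        show Y (x u) (Sum.inl e) - Y (x w) (Sum.inl e) = 0
        rw [← hz', sub_eq_zero]
        show _ = Y (x (a e)) (Sum.inl e)
        rcases he with he | he
        · rw [he]
        · rw [hlab e, he]
    funext i
    have h2 := congrFun h1 (Sum.inr i)
    simp only [Pi.sub_apply, hY1, Pi.zero_apply] at h2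
    linarith

end Pool.Agent.Q320.EqTest.Alg
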