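import Pool.Agent.Q320.EqTest.Main

/-!
# Two bounds on `fc`
-/

set_option autoImplicit false

namespace Pool.Agent.Q320.EqTest

open Finset

variable {V : Type} [Fintype V] [DecidableEq V]

/-- weak duality, for a list of edges with multiplicities -/
theorem fc_le_of_list (G : SimpleGraph V) (L : List (V × V × ℕ)) (hL : ∀ p ∈ L, G.Adj p.1 p.2.1)
    (r : ℕ) (hr : 0 < r)
    (h : ∀ S : Finset V, S ≠ ∅ → S ≠ univ →
      r ≤ (L.map fun p => if ¬ (p.1 ∈ S ↔ p.2.1 ∈ S) then p.2.2 else 0).sum) :
    fc G ≤ ((L.map fun p => p.2.2).sum : ℕ) / (r : ℝ) := by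
  have hr' : (0 : ℝ) < r := by exact_mod_cast hr
  refine csSup_le ⟨_, _, zero_isPacking G, rfl⟩ ?_
  rintro t ⟨g, hg, rfl⟩
  rw [le_div_iff₀ hr']
  have h1 : ∀ S : Finset V, g S / 2 * r ≤
      g S / 2 * ((L.map fun p => if ¬ (p.1 ∈ S ↔ p.2.1 ∈ S) then p.2.2 else 0).sum : ℕ) := by
    intro S
    by_cases hS : S = ∅
    · rw [hS, hg.empty]; simp
    by_cases hS' : S = univ
    · have h0 : g univ = 0 := by
        rw [← hg.compl, compl_univ]; exact hg.empty
      rw [hS', h0]; simp
    · have h2 := h S hS hS'
      have h3 : (r : ℝ) ≤ ((L.map fun p => if ¬ (p.1 ∈ S ↔ p.2.1 ∈ S) then p.2.2 else 0).sum : ℕ) := by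
        exact_mod_cast h2
      exact mul_le_mul_of_nonneg_left h3 (div_nonneg (hg.nonneg S) (by norm_num))
  have h2 : ∀ L : List (V × V × ℕ), (∀ p ∈ L, G.Adj p.1 p.2.1) →
      ∑ S : Finset V, g S / 2 *
        ((L.map fun p => if ¬ (p.1 ∈ S ↔ p.2.1 ∈ S) then p.2.2 else 0).sum : ℕ) ≤
      ((L.map fun p => p.2.2).sum : ℕ) := by
    intro L
    induction L with
    | nil => intro _; simp
    | cons p L ih =>
      intro hL
      have ih' := ih (fun q hq => hL q (List.mem_cons_of_mem _ hq))
      have hp := hg.cross p.1 p.2.1 (hL p List.mem_cons_self)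
      simp only [List.map_cons, List.sum_cons]
      push_cast
      have h3 : ∑ S : Finset V, g S / 2 * (((if ¬ (p.1 ∈ S ↔ p.2.1 ∈ S) then p.2.2 else 0 : ℕ) : ℝ) +
          ((L.map fun p => if ¬ (p.1 ∈ S ↔ p.2.1 ∈ S) then p.2.2 else 0).sum : ℕ)) =
          (∑ S ∈ univ.filter (fun S : Finset V => ¬ (p.1 ∈ S ↔ p.2.1 ∈ S)), g S) / 2 * p.2.2 +
          ∑ S : Finset V, g S / 2 *
            ((L.map fun p => if ¬ (p.1 ∈ S ↔ p.2.1 ∈ S) then p.2.2 else 0).sum : ℕ) := by
        rw [Finset.sum_div, Finset.sum_mul, Finset.sum_filter, ← Finset.sum_add_distrib]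
        refine Finset.sum_congr rfl fun S _ => ?_
        split_ifs <;> push_cast <;> ring
      push_cast at h3 ih'
      rw [h3]
      have h4 : (0 : ℝ) ≤ p.2.2 := Nat.cast_nonneg _
      nlinarith
  calc weight g * r = ∑ S, g S / 2 * r := by
        unfold weight
        rw [Finset.sum_div, Finset.sum_mul]
    _ ≤ _ := Finset.sum_le_sum fun S _ => h1 S
    _ ≤ _ := h2 L hL

/-- the packing of all single vertex cuts -/
theorem half_card_le_fc (G : SimpleGraph V) (hV : 3 ≤ Fintype.card V) :
    (Fintype.card V : ℝ) / 2 ≤ fc G := by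
  classical
  let g : Finset V → ℝ := fun S => if S.card = 1 ∨ Sᶜ.card = 1 then 1 / 2 else 0
  have hg0 : ∀ S, 0 ≤ g S := by
    intro S
    simp only [g]
    split_ifs <;> norm_num
  have hg : IsPacking G g := by
    refine ⟨?_, hg0, ?_, ?_, ?_⟩
    · intro S
      simp only [g, compl_compl]
      congr 1
      exact propext or_comm
    · intro S
      simp only [g]
      split_ifs <;> norm_num
    · simp only [g, card_empty, compl_empty, card_univ]
      rw [if_neg]
      omega
    · intro u v _
      have h1 : ∑ S ∈ univ.filter (fun S : Finset V => u ∈ S ∧ v ∉ S), g S ≤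
          ∑ S ∈ ({{u}, {v}ᶜ} : Finset (Finset V)), (1 / 2 : ℝ) := by
        rw [← Finset.sum_filter_add_sum_filter_not (univ.filter (fun S : Finset V => u ∈ S ∧ v ∉ S))
          (fun S => S.card = 1 ∨ Sᶜ.card = 1)]
        have h2 : ∑ S ∈ (univ.filter (fun S : Finset V => u ∈ S ∧ v ∉ S)).filter
            (fun S => ¬ (S.card = 1 ∨ Sᶜ.card = 1)), g S = 0 := by
          refine Finset.sum_eq_zero fun S hS => ?_
          rw [mem_filter] at hS
          simp only [g, if_neg hS.2]
        rw [h2, add_zero]
        have h3 : ∑ S ∈ (univ.filter (fun S : Finset V => u ∈ S ∧ v ∉ S)).filter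
            (fun S => S.card = 1 ∨ Sᶜ.card = 1), g S =
            ∑ S ∈ (univ.filter (fun S : Finset V => u ∈ S ∧ v ∉ S)).filter
            (fun S => S.card = 1 ∨ Sᶜ.card = 1), (1 / 2 : ℝ) := by
          refine Finset.sum_congr rfl fun S hS => ?_
          rw [mem_filter] at hS
          simp only [g, if_pos hS.2]
        rw [h3]
        refine Finset.sum_le_sum_of_subset_of_nonneg ?_ (fun _ _ _ => by norm_num)
        intro S hS
        rw [mem_filter, mem_filter] at hS
        obtain ⟨⟨-, hu, hv⟩, hS⟩ := hS
        rw [mem_insert, mem_singleton]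
        rcases hS with hS | hS
        · left
          obtain ⟨x, hx⟩ := card_eq_one.1 hS
          rw [hx, mem_singleton] at hu
          rw [hx, hu]
        · right
          obtain ⟨x, hx⟩ := card_eq_one.1 hS
          rw [← mem_compl, hx, mem_singleton] at hv
          rw [hv, ← hx, compl_compl]
      refine h1.trans ?_
      rw [sum_const, nsmul_eq_mul]
      have : (({{u}, {v}ᶜ} : Finset (Finset V)).card : ℝ) ≤ 2 := by
        exact_mod_cast card_le_two
      linarith
  refine le_trans ?_ (le_fc hg)
  unfold weight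
  have h1 : (Fintype.card V : ℝ) ≤ ∑ S, g S := by
    have hdisj : Disjoint ((univ : Finset V).image (fun v => ({v} : Finset V)))
        ((univ : Finset V).image (fun v => ({v} : Finset V)ᶜ)) := by
      rw [Finset.disjoint_left]
      intro S hS hS'
      obtain ⟨x, -, rfl⟩ := mem_image.1 hS
      obtain ⟨y, -, hy⟩ := mem_image.1 hS'
      have := congrArg Finset.card hy
      rw [card_compl, card_singleton, card_singleton] at this
      omega
    calc (Fintype.card V : ℝ) = ∑ S ∈ ((univ : Finset V).image (fun v => ({v} : Finset V))) ∪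
          ((univ : Finset V).image (fun v => ({v} : Finset V)ᶜ)), (1 / 2 : ℝ) := by
          rw [Finset.sum_union hdisj, sum_const, sum_const,
            card_image_of_injective _ (fun a b h => singleton_injective h),
            card_image_of_injective _ (fun a b h => singleton_injective (compl_injective h)),
            card_univ, nsmul_eq_mul]
          ring
      _ = ∑ S ∈ ((univ : Finset V).image (fun v => ({v} : Finset V))) ∪
          ((univ : Finset V).image (fun v => ({v} : Finset V)ᶜ)), g S := by
          refine Finset.sum_congr rfl fun S hS => ?_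
          simp only [g]
          rw [if_pos]
          rw [mem_union] at hS
          rcases hS with hS | hS
          · obtain ⟨x, -, rfl⟩ := mem_image.1 hS
            left; exact card_singleton x
          · obtain ⟨x, -, rfl⟩ := mem_image.1 hS
            right; rw [compl_compl]; exact card_singleton x
      _ ≤ ∑ S, g S := Finset.sum_le_sum_of_subset_of_nonneg (subset_univ _) (fun S _ _ => hg0 S)
  linarith

end Pool.Agent.Q320.EqTest
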