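import Mathlib.Combinatorics.SimpleGraph.Basic
import Mathlib.Algebra.Order.Archimedean.Real.Basic
import Mathlib.Order.Lattice.Nat
import Mathlib.Logic.Relation
import Mathlib.Algebra.BigOperators.Group.Finset.Basic
import Mathlib.Data.Fintype.Powerset

/-!
# Equality testing on a graph: protocols, their cost, and fractional packings of cuts
-/

namespace Pool.Agent.Q320.EqTest

/-- The program of a player: stop with a verdict; or send the bit `b` to the player `w` and go on
with `next`; or wait for the next bit from the player `w` and go on with the program `next b`,
where `b` is the bit received. -/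
inductive Prog (V : Type) : Type
  | stop (verdict : Bool) : Prog V
  | send (w : V) (b : Bool) (next : Prog V) : Prog V
  | recv (w : V) (next : Bool → Prog V) : Prog V

/-- The program of the player `v` only uses links between `v` and its neighbours in `G`. -/
def Prog.Uses {V : Type} (G : SimpleGraph V) (v : V) : Prog V → Prop
  | .stop _ => True
  | .send w _ p => G.Adj v w ∧ p.Uses G v
  | .recv w p => G.Adj v w ∧ ∀ b, (p b).Uses G v

/-- A global state: the remaining program of every player, for all `u`, `v` the bits sent from `u`
to `v` that `v` has not received yet (oldest first), and the number of bits sent so far. -/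
structure State (V : Type) where
  prog : V → Prog V
  queue : V → V → List Bool
  bits : ℕ

/-- One step of a run: some player sends a bit, or receives a bit. -/
inductive Step {V : Type} [DecidableEq V] : State V → State V → Prop
  | send (s : State V) (v w : V) (b : Bool) (p : Prog V) (h : s.prog v = Prog.send w b p) :
      Step s ⟨Function.update s.prog v p,
        fun x y => if x = v ∧ y = w then s.queue x y ++ [b] else s.queue x y, s.bits + 1⟩
  | recv (s : State V) (v w : V) (b : Bool) (p : Bool → Prog V) (l : List Bool)
      (h : s.prog v = Prog.recv w p) (hq : s.queue w v = b :: l) :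
      Step s ⟨Function.update s.prog v (p b),
        fun x y => if x = w ∧ y = v then l else s.queue x y, s.bits⟩

/-- The state at the beginning: nothing has been sent. -/
def start {V : Type} (p : V → Prog V) : State V := ⟨p, fun _ _ => [], 0⟩

/-- `P v a` is the program of the player `v` on input `a`. The protocol `P` decides whether all
`n`-bit inputs are equal, sending at most `c` bits over edges of `G`: on every input it can be run
until all players have stopped with the right verdict, at most `c` bits having been sent. -/
def Decides {V : Type} [DecidableEq V] (G : SimpleGraph V) (n : ℕ)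
    (P : V → (Fin n → Bool) → Prog V) (c : ℕ) : Prop :=
  (∀ v a, (P v a).Uses G v) ∧
  ∀ x : V → (Fin n → Bool), ∃ s : State V,
    Relation.ReflTransGen Step (start fun v => P v (x v)) s ∧
    (∀ v, ∃ b : Bool, s.prog v = Prog.stop b ∧ (b = true ↔ ∀ u w, x u = x w)) ∧ s.bits ≤ c

/-- `f(n,G)`: the least cost of a protocol deciding whether all `n`-bit inputs are equal. -/
noncomputable def cost {V : Type} [DecidableEq V] (G : SimpleGraph V) (n : ℕ) : ℕ :=
  sInf {c : ℕ | ∃ P : V → (Fin n → Bool) → Prog V, Decides G n P c}

/-- A fractional packing of cuts: every cut `{S, Sᶜ}` has the weight `g S = g Sᶜ` in `[0,1]`, and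
for every edge `uv` the cuts containing `uv` (each counted once, by its side containing `u`) have
total weight at most `1`. -/
structure IsPacking {V : Type} [Fintype V] [DecidableEq V] (G : SimpleGraph V)
    (g : Finset V → ℝ) : Prop where
  compl : ∀ S, g Sᶜ = g S
  nonneg : ∀ S, 0 ≤ g S
  le_one : ∀ S, g S ≤ 1
  empty : g ∅ = 0
  edge : ∀ u v, G.Adj u v → ∑ S ∈ Finset.univ.filter (fun S => u ∈ S ∧ v ∉ S), g S ≤ 1

/-- The total weight of a packing (the sum over all `S` counts every cut twice). -/
noncomputable def weight {V : Type} [Fintype V] [DecidableEq V] (g : Finset V → ℝ) : ℝ :=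
  (∑ S, g S) / 2

/-- `fc(G)`: the maximum total weight of a fractional packing of cuts. -/
noncomputable def fc {V : Type} [Fintype V] [DecidableEq V] (G : SimpleGraph V) : ℝ :=
  sSup {t : ℝ | ∃ g : Finset V → ℝ, IsPacking G g ∧ t = weight g}

end Pool.Agent.Q320.EqTest
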