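import Pool.Agent.Q320.EqTest.Bounds
import Mathlib.Combinatorics.SimpleGraph.Hamiltonian
import Mathlib.Combinatorics.SimpleGraph.Connectivity.Subgraph
import Mathlib.Data.Set.Card

/-!
# A non-Hamiltonian graph on nine vertices

Two triangles `0 1 2` and `3 4 5`, and for `i = 0, 1, 2` a path `i, 6 + i, 3 + i`.
-/

set_option autoImplicit false

namespace Pool.Agent.Q320.EqTest.Example

open Finset

/-- the neighbours -/
def nb : Fin 9 → List (Fin 9) :=
  ![[1, 2, 6], [0, 2, 7], [0, 1, 8], [4, 5, 6], [3, 5, 7], [3, 4, 8], [0, 3], [1, 4], [2, 5]]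

/-- two triangles `0 1 2` and `3 4 5` joined by the three paths `i, 6 + i, 3 + i` -/
def G9 : SimpleGraph (Fin 9) where
  Adj u v := v ∈ nb u
  symm := ⟨by decide⟩
  loopless := ⟨by decide⟩

instance : DecidableRel G9.Adj := fun u v => inferInstanceAs (Decidable (v ∈ nb u))

theorem connected : G9.Connected := by
  rw [SimpleGraph.connected_iff_exists_forall_reachable]
  refine ⟨0, ?_⟩
  have h : ∀ u v, v ∈ nb u → G9.Reachable u v := fun u v h => SimpleGraph.Adj.reachable (G := G9) h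
  have h1 := h 0 1 (by decide)
  have h2 := h 0 2 (by decide)
  have h6 := h 0 6 (by decide)
  have h3 := h6.trans (h 6 3 (by decide))
  have h4 := h3.trans (h 3 4 (by decide))
  have h5 := h3.trans (h 3 5 (by decide))
  have h7 := h1.trans (h 1 7 (by decide))
  have h8 := h2.trans (h 2 8 (by decide))
  intro w
  fin_cases w
  · exact SimpleGraph.Reachable.refl 0
  · exact h1
  · exact h2
  · exact h3
  · exact h4
  · exact h5
  · exact h6
  · exact h7
  · exact h8

/-- the edges with multiplicities: the triangles once, the paths twice -/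
def L9 : List (Fin 9 × Fin 9 × ℕ) :=
  [(0, 1, 1), (0, 2, 1), (1, 2, 1), (3, 4, 1), (3, 5, 1), (4, 5, 1),
   (0, 6, 2), (3, 6, 2), (1, 7, 2), (4, 7, 2), (2, 8, 2), (5, 8, 2)]

theorem cuts_bool : ∀ x : Fin 9 → Bool,
    ¬ (x 0 = x 1 ∧ x 1 = x 2 ∧ x 2 = x 3 ∧ x 3 = x 4 ∧ x 4 = x 5 ∧ x 5 = x 6 ∧ x 6 = x 7 ∧
      x 7 = x 8) →
    4 ≤ (xor (x 0) (x 1)).toNat + (xor (x 0) (x 2)).toNat + (xor (x 1) (x 2)).toNat +
      (xor (x 3) (x 4)).toNat + (xor (x 3) (x 5)).toNat + (xor (x 4) (x 5)).toNat +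
      2 * (xor (x 0) (x 6)).toNat + 2 * (xor (x 3) (x 6)).toNat + 2 * (xor (x 1) (x 7)).toNat +
      2 * (xor (x 4) (x 7)).toNat + 2 * (xor (x 2) (x 8)).toNat +
      2 * (xor (x 5) (x 8)).toNat := by
  decide +kernel

theorem ite_toNat (P Q : Prop) [Decidable P] [Decidable Q] (k : ℕ) :
    (if ¬ (P ↔ Q) then k else 0) = k * (xor (decide P) (decide Q)).toNat := by
  by_cases hP : P <;> by_cases hQ : Q <;> simp [hP, hQ]

theorem cuts (S : Finset (Fin 9)) (hS : S ≠ ∅) (hS' : S ≠ univ) :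
    4 ≤ (L9.map fun p => if ¬ (p.1 ∈ S ↔ p.2.1 ∈ S) then p.2.2 else 0).sum := by
  have h := cuts_bool (fun i => decide (i ∈ S)) ?_
  · simp only [L9, List.map_cons, List.map_nil, List.sum_cons, List.sum_nil, ite_toNat, one_mul,
      add_zero]
    omega
  · rintro ⟨h0, h1, h2, h3, h4, h5, h6, h7⟩
    simp only [decide_eq_decide] at h0 h1 h2 h3 h4 h5 h6 h7
    by_cases hc : (0 : Fin 9) ∈ S
    · have m1 := h0.1 hc
      have m2 := h1.1 m1
      have m3 := h2.1 m2
      have m4 := h3.1 m3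
      have m5 := h4.1 m4
      have m6 := h5.1 m5
      have m7 := h6.1 m6
      have m8 := h7.1 m7
      apply hS'
      rw [Finset.eq_univ_iff_forall]
      intro x
      fin_cases x <;> assumption
    · have m1 := mt h0.2 hc
      have m2 := mt h1.2 m1
      have m3 := mt h2.2 m2
      have m4 := mt h3.2 m3
      have m5 := mt h4.2 m4
      have m6 := mt h5.2 m5
      have m7 := mt h6.2 m6
      have m8 := mt h7.2 m7
      apply hS
      rw [Finset.eq_empty_iff_forall_notMem]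
      intro x
      fin_cases x <;> assumption

theorem fc_eq : fc G9 = 9 / 2 := by
  apply le_antisymm
  · have h := fc_le_of_list G9 L9 (by decide) 4 (by norm_num) cuts
    have h2 : (L9.map fun p => p.2.2).sum = 18 := by decide
    rw [h2] at h
    norm_num at h ⊢
    exact h
  · have h := half_card_le_fc G9 (by simp)
    simpa using h

theorem three {α : Type} (N : Set α) (x y z : α) (hsub : ∀ w ∈ N, w = x ∨ w = y ∨ w = z)
    (hcard : N.ncard = 2) (hz : z ∈ N) (hxy : x ≠ y) (hxz : x ≠ z) (hyz : y ≠ z) :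
    x ∈ N ↔ y ∉ N := by
  constructor
  · intro hx hy
    have : N = {x, y, z} := by
      ext w
      simp only [Set.mem_insert_iff, Set.mem_singleton_iff]
      constructor
      · exact hsub w
      · rintro (rfl | rfl | rfl) <;> assumption
    rw [this, Set.ncard_eq_three.2 ⟨x, y, z, hxy, hxz, hyz, rfl⟩] at hcard
    omega
  · intro hy
    by_contra hx
    have : N = {z} := by
      ext w
      simp only [Set.mem_singleton_iff]
      constructor
      · intro hw
        rcases hsub w hw with rfl | rfl | rfl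
        · exact absurd hw hx
        · exact absurd hw hy
        · rfl
      · rintro rfl; exact hz
    rw [this, Set.ncard_singleton] at hcard
    omega

theorem two {α : Type} (N : Set α) (x y : α) (hsub : ∀ w ∈ N, w = x ∨ w = y)
    (hcard : N.ncard = 2) : x ∈ N := by
  by_contra hx
  have : N ⊆ {y} := by
    intro w hw
    rcases hsub w hw with rfl | rfl
    · exact absurd hw hx
    · rfl
  have := Set.ncard_le_ncard this (Set.finite_singleton y)
  rw [Set.ncard_singleton] at this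
  omega

theorem not_hamiltonian : ¬ G9.IsHamiltonian := by
  intro h
  obtain ⟨a, p, hp⟩ := h (by simp)
  have hc : ∀ v, (p.toSubgraph.neighborSet v).ncard = 2 := fun v =>
    hp.isCycle.ncard_neighborSet_toSubgraph_eq_two (hp.mem_support v)
  have hn : ∀ v, ∀ w ∈ p.toSubgraph.neighborSet v, w ∈ nb v := fun v w hw =>
    p.toSubgraph.adj_sub hw
  have h6 : p.toSubgraph.Adj 6 0 := two _ 0 3 (fun w hw =>
    (by decide : ∀ w, w ∈ nb 6 → w = 0 ∨ w = 3) w (hn 6 w hw)) (hc 6)
  have h7 : p.toSubgraph.Adj 7 1 := two _ 1 4 (fun w hw =>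
    (by decide : ∀ w, w ∈ nb 7 → w = 1 ∨ w = 4) w (hn 7 w hw)) (hc 7)
  have h8 : p.toSubgraph.Adj 8 2 := two _ 2 5 (fun w hw =>
    (by decide : ∀ w, w ∈ nb 8 → w = 2 ∨ w = 5) w (hn 8 w hw)) (hc 8)
  have e0 := three _ 1 2 6 (fun w hw =>
    (by decide : ∀ w, w ∈ nb 0 → w = 1 ∨ w = 2 ∨ w = 6) w (hn 0 w hw)) (hc 0) h6.symm (by decide) (by decide)
    (by decide)
  have e1 := three _ 0 2 7 (fun w hw =>
    (by decide : ∀ w, w ∈ nb 1 → w = 0 ∨ w = 2 ∨ w = 7) w (hn 1 w hw)) (hc 1) h7.symm (by decide) (by decide)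
    (by decide)
  have e2 := three _ 0 1 8 (fun w hw =>
    (by decide : ∀ w, w ∈ nb 2 → w = 0 ∨ w = 1 ∨ w = 8) w (hn 2 w hw)) (hc 2) h8.symm (by decide) (by decide)
    (by decide)
  have f01 : (1 : Fin 9) ∈ p.toSubgraph.neighborSet 0 ↔ (0 : Fin 9) ∈ p.toSubgraph.neighborSet 1 :=
    p.toSubgraph.adj_comm 0 1
  have f02 : (2 : Fin 9) ∈ p.toSubgraph.neighborSet 0 ↔ (0 : Fin 9) ∈ p.toSubgraph.neighborSet 2 :=
    p.toSubgraph.adj_comm 0 2
  have f12 : (2 : Fin 9) ∈ p.toSubgraph.neighborSet 1 ↔ (1 : Fin 9) ∈ p.toSubgraph.neighborSet 2 :=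
    p.toSubgraph.adj_comm 1 2
  tauto

end Pool.Agent.Q320.EqTest.Example
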