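import Pool.Agent.Q320.EqTest.Lower2
import Pool.Agent.H249R2.PM.Farkas
import Mathlib.Combinatorics.SimpleGraph.Connectivity.Connected

/-!
# Linear programming duality for the packing of cuts
-/

set_option autoImplicit false

namespace Pool.Agent.Q320.EqTest

open Finset

variable {V : Type} [Fintype V] [DecidableEq V]

theorem weight_bdd (G : SimpleGraph V) :
    BddAbove {t : ℝ | ∃ g : Finset V → ℝ, IsPacking G g ∧ t = weight g} := by
  refine ⟨(∑ _S : Finset V, (1 : ℝ)) / 2, ?_⟩
  rintro t ⟨g, hg, rfl⟩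
  unfold weight
  have : ∑ S, g S ≤ ∑ _S : Finset V, (1 : ℝ) := Finset.sum_le_sum fun S _ => hg.le_one S
  linarith

theorem le_fc {G : SimpleGraph V} {g : Finset V → ℝ} (hg : IsPacking G g) : weight g ≤ fc G :=
  le_csSup (weight_bdd G) ⟨g, hg, rfl⟩

theorem zero_isPacking (G : SimpleGraph V) : IsPacking G (fun _ => 0) := by
  refine ⟨fun _ => rfl, fun _ => le_rfl, fun _ => zero_le_one, rfl, fun u v _ => ?_⟩
  simp

theorem fc_nonneg (G : SimpleGraph V) : 0 ≤ fc G := by
  have := le_fc (zero_isPacking G)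
  simpa [weight] using this

theorem sum_compl_filter (h : Finset V → ℝ) (u v : V) :
    ∑ S ∈ univ.filter (fun S : Finset V => u ∈ S ∧ v ∉ S), h Sᶜ =
      ∑ S ∈ univ.filter (fun S : Finset V => v ∈ S ∧ u ∉ S), h S := by
  refine Finset.sum_bij' (fun S _ => Sᶜ) (fun S _ => Sᶜ) ?_ ?_ ?_ ?_ ?_
  · intro S hS
    simp only [mem_filter, mem_univ, true_and, mem_compl, not_not] at hS ⊢
    exact ⟨hS.2, hS.1⟩
  · intro S hS
    simp only [mem_filter, mem_univ, true_and, mem_compl, not_not] at hS ⊢
    exact ⟨hS.2, hS.1⟩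
  · intro S _; exact compl_compl S
  · intro S _; exact compl_compl S
  · intro S _; rfl

theorem sum_cross (h : Finset V → ℝ) (u v : V) :
    ∑ S ∈ univ.filter (fun S : Finset V => ¬ (u ∈ S ↔ v ∈ S)), h S =
    ∑ S ∈ univ.filter (fun S : Finset V => u ∈ S ∧ v ∉ S), h S +
      ∑ S ∈ univ.filter (fun S : Finset V => v ∈ S ∧ u ∉ S), h S := by
  have h3 : univ.filter (fun S : Finset V => ¬ (u ∈ S ↔ v ∈ S)) =
      univ.filter (fun S : Finset V => u ∈ S ∧ v ∉ S) ∪
      univ.filter (fun S : Finset V => v ∈ S ∧ u ∉ S) := by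
    ext S
    simp only [mem_filter, mem_univ, true_and, mem_union]
    tauto
  rw [h3, Finset.sum_union]
  rw [Finset.disjoint_left]
  intro S hS hS'
  simp only [mem_filter, mem_univ, true_and] at hS hS'
  exact hS.2 hS'.1

theorem exists_cross {G : SimpleGraph V} (hG : G.Connected) (S : Finset V) (hS : S ≠ ∅)
    (hS' : S ≠ univ) : ∃ u v, G.Adj u v ∧ u ∈ S ∧ v ∉ S := by
  obtain ⟨x, hx⟩ := Finset.nonempty_iff_ne_empty.2 hS
  obtain ⟨y, hy⟩ : ∃ y, y ∉ S := by
    by_contra hcon
    push Not at hcon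
    exact hS' (Finset.eq_univ_iff_forall.2 hcon)
  obtain ⟨p⟩ := hG.preconnected x y
  obtain ⟨d, -, hd1, hd2⟩ := p.exists_boundary_dart (S : Set V) hx hy
  exact ⟨d.fst, d.snd, d.adj, hd1, hd2⟩

/-- Weights of the edges, feasible for the covering problem, of total weight at most `fc G`. -/
theorem exists_weights {G : SimpleGraph V} [DecidableRel G.Adj] (hG : G.Connected) :
    ∃ c : {p : V × V // G.Adj p.1 p.2} → ℝ, (∀ p, 0 ≤ c p) ∧ ∑ p, c p ≤ fc G ∧
      ∀ S : Finset V, S ≠ ∅ → S ≠ univ →
        1 ≤ ∑ p ∈ univ.filter (fun p : {p : V × V // G.Adj p.1 p.2} =>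
            ¬ (p.1.1 ∈ S ↔ p.1.2 ∈ S)), c p := by
  let Pr := {p : V × V // G.Adj p.1 p.2}
  let good : Finset (Finset V) := univ.filter fun S => S ≠ ∅ ∧ S ≠ univ
  let ℓ : (Finset V ⊕ Pr) → ((Finset V → ℝ) →ₗ[ℝ] ℝ) := fun i =>
    match i with
    | Sum.inl S => -(LinearMap.proj S)
    | Sum.inr p => ∑ S ∈ univ.filter (fun S : Finset V => ¬ (p.1.1 ∈ S ↔ p.1.2 ∈ S)),
        LinearMap.proj S
  let bb : (Finset V ⊕ Pr) → ℝ := fun i =>
    match i with
    | Sum.inl _ => 0
    | Sum.inr _ => 1
  let f : (Finset V → ℝ) →ₗ[ℝ] ℝ := ∑ S ∈ good, LinearMap.proj S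
  have hl1 : ∀ S x, ℓ (Sum.inl S) x = -x S := fun S x => rfl
  have hl2 : ∀ p x, ℓ (Sum.inr p) x =
      ∑ S ∈ univ.filter (fun S : Finset V => ¬ (p.1.1 ∈ S ↔ p.1.2 ∈ S)), x S := by
    intro p x
    simp only [ℓ, LinearMap.sum_apply, LinearMap.proj_apply]
  have hf : ∀ x, f x = ∑ S ∈ good, x S := by
    intro x
    simp only [f, LinearMap.sum_apply, LinearMap.proj_apply]
  obtain ⟨w0, wt, hw0, hwt, hw⟩ := Pool.Agent.H249R2.PM.farkas_fin ℓ bb f (fc G) 0
    (by
      intro i
      rcases i with S | p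
      · simp [bb]
      · simp [bb])
    (by
      intro h hh
      have h0 : ∀ S, 0 ≤ h S := by
        intro S
        have := hh (Sum.inl S)
        rw [hl1] at this
        simp only [bb] at this
        linarith
      let g : Finset V → ℝ := fun S => if S ∈ good then h S + h Sᶜ else 0
      have hgood : ∀ S, Sᶜ ∈ good ↔ S ∈ good := by
        intro S
        simp only [good, mem_filter, mem_univ, true_and]
        rw [ne_eq, ne_eq, compl_eq_empty_iff, compl_eq_univ_iff]
        tauto
      have hge : ∀ u v, G.Adj u v →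
          ∑ S ∈ univ.filter (fun S : Finset V => u ∈ S ∧ v ∉ S), g S ≤ 1 := by
        intro u v huv
        have h1 : ∑ S ∈ univ.filter (fun S : Finset V => u ∈ S ∧ v ∉ S), g S =
            ∑ S ∈ univ.filter (fun S : Finset V => u ∈ S ∧ v ∉ S), (h S + h Sᶜ) := by
          refine Finset.sum_congr rfl fun S hS => ?_
          rw [mem_filter] at hS
          have : S ∈ good := by
            simp only [good, mem_filter, mem_univ, true_and]
            refine ⟨fun he => ?_, fun he => ?_⟩
            · rw [he] at hS; exact absurd hS.2.1 (notMem_empty u)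
            · rw [he] at hS; exact hS.2.2 (mem_univ v)
          simp only [g, if_pos this]
        rw [h1, Finset.sum_add_distrib, sum_compl_filter, ← sum_cross]
        have := hh (Sum.inr ⟨(u, v), huv⟩)
        rw [hl2] at this
        exact this
      have hg0 : ∀ S, 0 ≤ g S := by
        intro S
        simp only [g]
        split_ifs
        · exact add_nonneg (h0 _) (h0 _)
        · exact le_rfl
      have hg : IsPacking G g := by
        refine ⟨?_, hg0, ?_, ?_, hge⟩
        · intro S
          simp only [g]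
          by_cases hS : S ∈ good
          · rw [if_pos hS, if_pos ((hgood S).2 hS), compl_compl, add_comm]
          · rw [if_neg hS, if_neg (fun h => hS ((hgood S).1 h))]
        · intro S
          by_cases hS : S ∈ good
          · have hS' := (mem_filter.1 hS).2
            obtain ⟨u, v, huv, hu, hv⟩ := exists_cross hG S hS'.1 hS'.2
            exact (Finset.single_le_sum (f := g) (fun T _ => hg0 T)
              (mem_filter.2 ⟨mem_univ S, hu, hv⟩)).trans (hge u v huv)
          · simp only [g, if_neg hS]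
            norm_num
        · simp [g, good]
      have hwg : weight g = f h := by
        rw [hf]
        unfold weight
        have h1 : ∑ S, g S = ∑ S ∈ good, (h S + h Sᶜ) := by
          simp only [g]
          rw [← Finset.sum_filter]
          congr 1
          ext S
          simp [good]
        have h2 : ∑ S ∈ good, h Sᶜ = ∑ S ∈ good, h S := by
          refine Finset.sum_bij' (fun S _ => Sᶜ) (fun S _ => Sᶜ) ?_ ?_ ?_ ?_ ?_
          · intro S hS; exact (hgood S).2 hS
          · intro S hS; exact (hgood S).2 hS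
          · intro S _; exact compl_compl S
          · intro S _; exact compl_compl S
          · intro S _; rfl
        rw [h1, Finset.sum_add_distrib, h2]
        ring
      rw [← hwg]
      exact le_fc hg)
  have hw' : ∀ x : Finset V → ℝ, fc G - ∑ S ∈ good, x S = w0 + (∑ S, wt (Sum.inl S) * x S +
      ∑ p : Pr, wt (Sum.inr p) * (1 - ∑ S ∈ univ.filter (fun S : Finset V =>
        ¬ (p.1.1 ∈ S ↔ p.1.2 ∈ S)), x S)) := by
    intro x
    have := hw x
    rw [hf, Fintype.sum_sum_type] at this
    simp only [hl1, hl2, bb, zero_sub, neg_neg] at this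
    exact this
  have h00 := hw' (fun _ => 0)
  simp only [Finset.sum_const_zero, sub_zero, mul_zero, mul_one, zero_add] at h00
  refine ⟨fun p => wt (Sum.inr p), fun p => hwt _, by linarith, ?_⟩
  intro S hS hS'
  have h1 := hw' (Pi.single S 1)
  have e1 : ∑ T ∈ good, (Pi.single S (1 : ℝ) : Finset V → ℝ) T = 1 := by
    rw [Finset.sum_eq_single S]
    · simp
    · intro T _ hT; exact Pi.single_eq_of_ne hT _
    · intro h; exact absurd (mem_filter.2 ⟨mem_univ S, hS, hS'⟩) h
  have e2 : ∑ T, wt (Sum.inl T) * (Pi.single S (1 : ℝ) : Finset V → ℝ) T = wt (Sum.inl S) := by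
    rw [Finset.sum_eq_single S]
    · simp
    · intro T _ hT; rw [Pi.single_eq_of_ne hT, mul_zero]
    · intro h; exact absurd (mem_univ S) h
  have e3 : ∀ p : Pr, ∑ T ∈ univ.filter (fun T : Finset V => ¬ (p.1.1 ∈ T ↔ p.1.2 ∈ T)),
      (Pi.single S (1 : ℝ) : Finset V → ℝ) T = if ¬ (p.1.1 ∈ S ↔ p.1.2 ∈ S) then 1 else 0 := by
    intro p
    rw [Finset.sum_filter]
    rw [Finset.sum_eq_single S]
    · simp
    · intro T _ hT; rw [Pi.single_eq_of_ne hT]; simp
    · intro h; exact absurd (mem_univ S) h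
  rw [e1, e2] at h1
  simp_rw [e3] at h1
  have e4 : ∑ p : Pr, wt (Sum.inr p) * (1 - if ¬ (p.1.1 ∈ S ↔ p.1.2 ∈ S) then (1 : ℝ) else 0) =
      ∑ p : Pr, wt (Sum.inr p) - ∑ p ∈ univ.filter (fun p : Pr =>
        ¬ (p.1.1 ∈ S ↔ p.1.2 ∈ S)), wt (Sum.inr p) := by
    rw [Finset.sum_filter, ← Finset.sum_sub_distrib]
    refine Finset.sum_congr rfl fun p _ => ?_
    split_ifs <;> ring
  rw [e4] at h1
  have := hwt (Sum.inl S)
  linarith

end Pool.Agent.Q320.EqTest
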