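import Pool.Agent.Q320.EqTest.Defs
import Mathlib.Tactic

/-!
# The lower bound: cuts and fooling sets
-/

namespace Pool.Agent.Q320.EqTest

open Finset

variable {V : Type} [DecidableEq V]

/-- The program, run on the incoming streams `I`, sends the streams `O` and stops with verdict. -/
inductive Eval : Prog V → (V → List Bool) → (V → List Bool) → Bool → Prop
  | stop (b : Bool) (I : V → List Bool) : Eval (Prog.stop b) I (fun _ => []) b
  | send (w : V) (b : Bool) (p : Prog V) (I O : V → List Bool) (c : Bool) (h : Eval p I O c) :
      Eval (Prog.send w b p) I (Function.update O w (b :: O w)) c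
  | recv (w : V) (p : Bool → Prog V) (b : Bool) (l : List Bool) (I O : V → List Bool) (c : Bool)
      (hI : I w = b :: l) (h : Eval (p b) (Function.update I w l) O c) :
      Eval (Prog.recv w p) I O c

theorem Eval.uses {G : SimpleGraph V} {v : V} {p : Prog V} {I O : V → List Bool} {c : Bool}
    (h : Eval p I O c) (hp : p.Uses G v) : ∀ w, O w ≠ [] → G.Adj v w := by
  induction h with
  | stop b I => intro w hw; exact absurd rfl hw
  | send w b p I O c h ih =>
    intro z hz
    by_cases hzw : z = w
    · subst hzw; exact hp.1
    · rw [Function.update_of_ne hzw] at hz
      exact ih hp.2 z hz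
  | recv w p b l I O c hI h ih =>
    exact ih (hp.2 b)

theorem key_send (s : State V) (v w : V) (b : Bool) (H : V → V → List Bool) (x y : V) :
    (if x = v ∧ y = w then s.queue x y ++ [b] else s.queue x y) ++ H x y =
      s.queue x y ++ (if x = v ∧ y = w then b :: H x y else H x y) := by
  split_ifs <;> simp

/-- Every completed run comes with histories of all links. -/
theorem run_eval [Fintype V] {s t : State V} (h : Relation.ReflTransGen Step s t)
    (ht : ∀ v, ∃ b, t.prog v = Prog.stop b) :
    ∃ H : V → V → List Bool,
      (∀ v b, t.prog v = Prog.stop b →
        Eval (s.prog v) (fun w => s.queue w v ++ H w v) (H v) b) ∧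
      t.bits = s.bits + ∑ x, ∑ y, (H x y).length := by
  induction h using Relation.ReflTransGen.head_induction_on with
  | refl =>
    refine ⟨fun _ _ => [], ?_, by simp⟩
    intro v b hb
    rw [hb]
    exact Eval.stop b _
  | @head s s₂ hst _ ih =>
    obtain ⟨H, hH, hbits⟩ := ih
    cases hst with
    | send v w b p hp =>
      refine ⟨fun x y => if x = v ∧ y = w then b :: H x y else H x y, ?_, ?_⟩
      · intro u c hu
        have h1 := hH u c hu
        simp only at h1
        have hin : (fun z => (if z = v ∧ u = w then s.queue z u ++ [b] else s.queue z u) ++ H z u) =
            fun z => s.queue z u ++ (if z = v ∧ u = w then b :: H z u else H z u) := by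
          funext z
          exact key_send s v w b H z u
        rw [hin] at h1
        by_cases huv : u = v
        · subst huv
          rw [Function.update_self] at h1
          rw [hp]
          have h2 := Eval.send w b p _ _ _ h1
          have hout : (fun y => if u = u ∧ y = w then b :: H u y else H u y) =
              Function.update (H u) w (b :: H u w) := by
            funext y
            by_cases hy : y = w
            · subst hy; simp
            · simp [hy]
          beta_reduce
          rw [hout]
          exact h2
        · rw [Function.update_of_ne huv] at h1
          have hout : (fun y => if u = v ∧ y = w then b :: H u y else H u y) = H u := by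
            funext y
            simp [huv]
          beta_reduce
          rw [hout]
          exact h1
      · rw [hbits]
        simp only
        have h3 : ∀ x y, (if x = v ∧ y = w then b :: H x y else H x y).length =
            (H x y).length + (if x = v then (if y = w then 1 else 0) else 0) := by
          intro x y
          by_cases hx : x = v <;> by_cases hy : y = w <;> simp [hx, hy]
        simp_rw [h3, Finset.sum_add_distrib]
        have h4 : ∑ x, ∑ y, (if x = v then (if y = w then 1 else 0) else 0) = 1 := by
          rw [Finset.sum_eq_single v]
          · simp
          · intro x _ hx; simp [hx]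
          · intro hv; exact absurd (Finset.mem_univ v) hv
        rw [h4]
        omega
    | recv v w b p l hp hq =>
      refine ⟨H, ?_, ?_⟩
      · intro u c hu
        have h1 := hH u c hu
        simp only at h1
        by_cases huv : u = v
        · subst huv
          rw [Function.update_self] at h1
          rw [hp]
          refine Eval.recv w p b (l ++ H w u) _ _ _ ?_ ?_
          · rw [hq]; rfl
          · convert h1 using 1
            funext z
            by_cases hz : z = w
            · subst hz; simp
            · simp [hz]
        · rw [Function.update_of_ne huv] at h1
          have hin : (fun z => (if z = w ∧ u = v then l else s.queue z u) ++ H z u) =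
              fun z => s.queue z u ++ H z u := by
            funext z
            simp [huv]
          rw [hin] at h1
          exact h1
      · rw [hbits]

/-- The histories of a completed run are the only consistent ones. -/
theorem run_unique {s t : State V} (h : Relation.ReflTransGen Step s t)
    (ht : ∀ v, ∃ b, t.prog v = Prog.stop b) :
    ∀ (H : V → V → List Bool) (c : V → Bool),
      (∀ v, Eval (s.prog v) (fun w => s.queue w v ++ H w v) (H v) (c v)) →
      ∀ v, t.prog v = Prog.stop (c v) := by
  induction h using Relation.ReflTransGen.head_induction_on with
  | refl =>
    intro H c hH v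
    obtain ⟨b, hb⟩ := ht v
    have h1 := hH v
    rw [hb] at h1 ⊢
    generalize hO : H v = O at h1
    generalize hc : c v = c' at h1
    cases h1
    rfl
  | @head s s₂ hst _ ih =>
    intro H c hH
    cases hst with
    | send v w b p hp =>
      have h1 := hH v
      rw [hp] at h1
      generalize hI : (fun w => s.queue w v ++ H w v) = I at h1
      generalize hO : H v = O at h1
      generalize hc : c v = c' at h1
      cases h1 with
      | send _ _ _ _ O' _ h2 =>
        refine ih (fun x y => if x = v then O' y else H x y) c ?_
        intro u
        have hin : (fun z => (if z = v ∧ u = w then s.queue z u ++ [b] else s.queue z u) ++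
            (if z = v then O' u else H z u)) = fun z => s.queue z u ++ H z u := by
          funext z
          by_cases hz : z = v
          · subst hz
            by_cases hu : u = w
            · subst hu
              simp only [and_self, if_true]
              rw [hO, Function.update_self]
              simp
            · simp only [hu, and_false, if_false, if_true]
              rw [hO, Function.update_of_ne hu]
          · simp [hz]
        simp only
        rw [hin]
        by_cases huv : u = v
        · subst huv
          rw [Function.update_self]
          simp only [if_true]
          rw [hI, hc]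
          exact h2
        · rw [Function.update_of_ne huv]
          simp only [huv, if_false]
          exact hH u
    | recv v w b p l hp hq =>
      have h1 := hH v
      rw [hp] at h1
      generalize hI : (fun w => s.queue w v ++ H w v) = I at h1
      generalize hO : H v = O at h1
      generalize hc : c v = c' at h1
      cases h1 with
      | recv _ _ b' l' _ _ _ hI' h2 =>
        rw [← hI] at hI'
        simp only [hq, List.cons_append] at hI'
        obtain ⟨rfl, rfl⟩ := List.cons.inj hI'
        refine ih H c ?_
        intro u
        simp only
        by_cases huv : u = v
        · subst huv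
          rw [Function.update_self, hO, hc]
          convert h2 using 1
          funext z
          rw [← hI]
          by_cases hz : z = w
          · subst hz; simp
          · simp [hz]
        · rw [Function.update_of_ne huv]
          have hin : (fun z => (if z = w ∧ u = v then l else s.queue z u) ++ H z u) =
              fun z => s.queue z u ++ H z u := by
            funext z
            simp [huv]
          rw [hin]
          exact hH u

/-- counting families of bit strings -/
theorem count_families {A ι : Type} [Fintype ι] [DecidableEq ι] [DecidableEq A] (T : Finset A)
    (φ : A → ι → List Bool) (hφ : Set.InjOn φ T) (t : ℕ)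
    (h : ∀ a ∈ T, ∑ i, (φ a i).length ≤ t) :
    T.card ≤ 2 ^ t * (t + 1) ^ (Fintype.card ι) := by
  classical
  have hlen : ∀ a ∈ T, ∀ i, (φ a i).length ≤ t := by
    intro a ha i
    exact (Finset.single_le_sum (f := fun i => (φ a i).length) (fun _ _ => Nat.zero_le _)
      (Finset.mem_univ i)).trans (h a ha)
  let L : A → (ι → Fin (t + 1)) := fun a i => ⟨min (φ a i).length t, by omega⟩
  have h1 : T.card ≤ 2 ^ t * (T.image L).card := by
    refine Finset.card_le_mul_card_image T (2 ^ t) ?_
    intro M hM
    obtain ⟨a₀, ha₀, haM⟩ := Finset.mem_image.1 hM
    have hM' : ∀ i, (φ a₀ i).length = (M i).val := by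
      intro i
      rw [← haM]
      simp only [L]
      have := hlen a₀ ha₀ i
      omega
    have hsum : ∑ i, (M i).val ≤ t := by
      have := h a₀ ha₀
      simp_rw [hM'] at this
      exact this
    let ψ : A → (∀ i, Fin (M i).val → Bool) := fun a i k => (φ a i).getD k.val false
    have hinj : Set.InjOn ψ (T.filter fun a => L a = M : Finset A) := by
      intro a ha b hb hab
      rw [Finset.mem_coe, Finset.mem_filter] at ha hb
      apply hφ ha.1 hb.1
      funext i
      have la : (φ a i).length = (M i).val := by
        rw [← ha.2]; simp only [L]; have := hlen a ha.1 i; omega
      have lb : (φ b i).length = (M i).val := by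
        rw [← hb.2]; simp only [L]; have := hlen b hb.1 i; omega
      refine List.ext_getElem (by rw [la, lb]) ?_
      intro k hk1 hk2
      have h3 := congrFun (congrFun hab i) ⟨k, by omega⟩
      simp only [ψ] at h3
      simpa [List.getD, hk1, hk2] using h3
    calc (T.filter fun a => L a = M).card
        ≤ (Finset.univ : Finset (∀ i, Fin (M i).val → Bool)).card :=
          Finset.card_le_card_of_injOn ψ (fun _ _ => Finset.mem_coe.2 (Finset.mem_univ _)) hinj
      _ = 2 ^ ∑ i, (M i).val := by
          rw [Finset.card_univ, Fintype.card_pi]
          simp only [Fintype.card_fun, Fintype.card_bool, Fintype.card_fin]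
          rw [Finset.prod_pow_eq_pow_sum]
      _ ≤ 2 ^ t := Nat.pow_le_pow_right (by norm_num) hsum
  refine h1.trans (Nat.mul_le_mul_left _ ?_)
  calc (T.image L).card ≤ Fintype.card (ι → Fin (t + 1)) := Finset.card_le_univ _
    _ = (t + 1) ^ Fintype.card ι := by simp

/-- the histories on equal inputs determine the input, already on every cut -/
theorem fooling [Fintype V] {G : SimpleGraph V} {n : ℕ} {P : V → (Fin n → Bool) → Prog V} {c : ℕ}
    (hP : Decides G n P c) :
    ∃ H : (Fin n → Bool) → V → V → List Bool,
      (∀ a u v, H a u v ≠ [] → G.Adj u v) ∧
      (∀ a, ∑ u, ∑ v, (H a u v).length ≤ c) ∧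
      ∀ S : Finset V, S.Nonempty → Sᶜ.Nonempty → ∀ a b,
        (∀ u v, ¬ (u ∈ S ↔ v ∈ S) → H a u v = H b u v) → a = b := by
  obtain ⟨hloc, hrun⟩ := hP
  have h1 : ∀ a : Fin n → Bool, ∃ H : V → V → List Bool,
      (∀ v, Eval (P v a) (fun w => H w v) (H v) true) ∧ ∑ u, ∑ v, (H u v).length ≤ c := by
    intro a
    obtain ⟨s, hs, hv, hb⟩ := hrun (fun _ => a)
    obtain ⟨H, hH, hbits⟩ := run_eval hs (fun v => by obtain ⟨b, hb, -⟩ := hv v; exact ⟨b, hb⟩)
    refine ⟨H, ?_, ?_⟩
    · intro v
      obtain ⟨b, hb1, hb2⟩ := hv v
      have : b = true := hb2.2 (fun _ _ => rfl)
      subst this
      have := hH v true hb1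
      simpa [start] using this
    · have : (start fun v => P v a).bits = 0 := rfl
      omega
  choose H hH hc using h1
  refine ⟨H, ?_, hc, ?_⟩
  · intro a u v huv
    exact (hH a u).uses (hloc u a) v huv
  · intro S hS hS' a b hab
    by_contra hne
    obtain ⟨s, hs, hv, -⟩ := hrun (fun v => if v ∈ S then a else b)
    have h2 := run_unique hs (fun v => by obtain ⟨b, hb, -⟩ := hv v; exact ⟨b, hb⟩)
      (fun u v => if u ∈ S then H a u v else H b u v) (fun _ => true) ?_
    · obtain ⟨u, hu⟩ := hS
      obtain ⟨w, hw⟩ := hS'
      rw [Finset.mem_compl] at hw
      obtain ⟨d, hd1, hd2⟩ := hv u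
      rw [h2 u] at hd1
      have : d = true := by
        injection hd1 with h3
        exact h3.symm
      have h4 := hd2.1 this u w
      simp only [hu, hw, if_true, if_false] at h4
      exact hne h4
    · intro v
      simp only [start, List.nil_append]
      by_cases hvS : v ∈ S
      · have e1 : (fun w => if w ∈ S then H a w v else H b w v) = fun w => H a w v := by
          funext w
          by_cases hw : w ∈ S
          · simp [hw]
          · simp only [hw, if_false]
            exact (hab w v (by simp [hw, hvS])).symm
        rw [e1]
        simp only [hvS, if_true]
        exact hH a v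
      · have e1 : (fun w => if w ∈ S then H a w v else H b w v) = fun w => H b w v := by
          funext w
          by_cases hw : w ∈ S
          · simp only [hw, if_true]
            exact hab w v (by simp [hw, hvS])
          · simp [hw]
        rw [e1]
        simp only [hvS, if_false]
        exact hH b v

end Pool.Agent.Q320.EqTest
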