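import Pool.Agent.Q320.EqTest.Lower

/-!
# The lower bound: packings of cuts
-/

namespace Pool.Agent.Q320.EqTest

open Finset

variable {V : Type} [DecidableEq V] [Fintype V]

theorem IsPacking.cross {G : SimpleGraph V} {g : Finset V → ℝ} (hg : IsPacking G g) (u v : V)
    (huv : G.Adj u v) : ∑ S ∈ univ.filter (fun S : Finset V => ¬ (u ∈ S ↔ v ∈ S)), g S ≤ 2 := by
  have h1 := hg.edge u v huv
  have h2 := hg.edge v u huv.symm
  have h3 : univ.filter (fun S : Finset V => ¬ (u ∈ S ↔ v ∈ S)) =
      univ.filter (fun S : Finset V => u ∈ S ∧ v ∉ S) ∪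
      univ.filter (fun S : Finset V => v ∈ S ∧ u ∉ S) := by
    ext S
    simp only [mem_filter, mem_univ, true_and, mem_union]
    tauto
  rw [h3, Finset.sum_union]
  · linarith
  · rw [Finset.disjoint_left]
    intro S hS hS'
    simp only [mem_filter, mem_univ, true_and] at hS hS'
    exact hS.2 hS'.1

theorem lower_bound {G : SimpleGraph V} {n : ℕ} {P : V → (Fin n → Bool) → Prog V} {c : ℕ}
    (hP : Decides G n P c) (t : ℕ)
    (ht : 2 ^ Fintype.card V * (2 ^ t * (t + 1) ^ (Fintype.card (V × V))) < 2 ^ n)
    (g : Finset V → ℝ) (hg : IsPacking G g) : weight g * (t + 1) ≤ c := by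
  classical
  obtain ⟨H, hadj, hc, hfool⟩ := fooling hP
  let φ : Finset V → (Fin n → Bool) → (V × V) → List Bool := fun S a p =>
    if ¬ (p.1 ∈ S ↔ p.2 ∈ S) then H a p.1 p.2 else []
  let cS : Finset V → (Fin n → Bool) → ℕ := fun S a => ∑ p, (φ S a p).length
  let good : Finset (Finset V) := univ.filter fun S => S.Nonempty ∧ Sᶜ.Nonempty
  have hinj : ∀ S ∈ good, Function.Injective (φ S) := by
    intro S hS a b hab
    rw [mem_filter] at hS
    apply hfool S hS.2.1 hS.2.2
    intro u v huv
    have := congrFun hab (u, v)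
    simpa [φ, huv] using this
  let A : Finset V → Finset (Fin n → Bool) := fun S => univ.filter fun a => cS S a ≤ t
  have hA : ∀ S ∈ good, (A S).card ≤ 2 ^ t * (t + 1) ^ (Fintype.card (V × V)) := by
    intro S hS
    refine count_families (A S) (φ S) (hinj S hS).injOn t ?_
    intro a ha
    exact (mem_filter.1 ha).2
  have hex : ∃ a, ∀ S ∈ good, t + 1 ≤ cS S a := by
    by_contra hcon
    push Not at hcon
    have h1 : (univ : Finset (Fin n → Bool)) ⊆ good.biUnion A := by
      intro a _
      obtain ⟨S, hS, hS'⟩ := hcon a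
      exact mem_biUnion.2 ⟨S, hS, mem_filter.2 ⟨mem_univ _, by omega⟩⟩
    have h2 := card_le_card h1
    have h3 : (good.biUnion A).card ≤ good.card * (2 ^ t * (t + 1) ^ (Fintype.card (V × V))) :=
      card_biUnion_le_card_mul _ _ _ hA
    have h4 : good.card ≤ 2 ^ Fintype.card V := by
      calc good.card ≤ (univ : Finset (Finset V)).card := card_le_univ _
        _ = 2 ^ Fintype.card V := by rw [card_univ, Fintype.card_finset]
    have h5 : (univ : Finset (Fin n → Bool)).card = 2 ^ n := by
      rw [card_univ]; simp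
    have h6 := Nat.mul_le_mul_right (2 ^ t * (t + 1) ^ (Fintype.card (V × V))) h4
    omega
  obtain ⟨a, ha⟩ := hex
  have hstep : ∀ S : Finset V, g S / 2 * (t + 1) ≤ g S / 2 * (cS S a : ℝ) := by
    intro S
    by_cases hS : S ∈ good
    · have h1 : ((t : ℝ) + 1) ≤ cS S a := by exact_mod_cast ha S hS
      have h2 := hg.nonneg S
      nlinarith
    · have h0 : g S = 0 := by
        by_cases hS0 : S = ∅
        · rw [hS0]; exact hg.empty
        · have hS1 : Sᶜ = ∅ := by
            by_contra hne
            exact hS (mem_filter.2 ⟨mem_univ _, nonempty_iff_ne_empty.2 hS0,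
              nonempty_iff_ne_empty.2 hne⟩)
          rw [← hg.compl, hS1]; exact hg.empty
      rw [h0]; simp
  have hc' : (∑ u, ∑ v, ((H a u v).length : ℝ)) ≤ c := by exact_mod_cast hc a
  calc weight g * (t + 1) = ∑ S, g S / 2 * (t + 1) := by
        unfold weight
        rw [Finset.sum_div, Finset.sum_mul]
    _ ≤ ∑ S, g S / 2 * (cS S a : ℝ) := Finset.sum_le_sum fun S _ => hstep S
    _ = ∑ S : Finset V, ∑ p : V × V, g S / 2 * ((φ S a p).length : ℝ) := by
        refine Finset.sum_congr rfl fun S _ => ?_
        simp only [cS]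
        rw [Nat.cast_sum, Finset.mul_sum]
    _ = ∑ p : V × V, ∑ S : Finset V, g S / 2 * ((φ S a p).length : ℝ) := Finset.sum_comm
    _ ≤ ∑ p : V × V, ((H a p.1 p.2).length : ℝ) := by
        refine Finset.sum_le_sum fun p _ => ?_
        by_cases hp : H a p.1 p.2 = []
        · have : ∀ S : Finset V, g S / 2 * ((φ S a p).length : ℝ) = 0 := by
            intro S
            simp only [φ, hp]
            simp
          simp [this]
        · have hadj' := hadj a p.1 p.2 hp
          have h1 := hg.cross p.1 p.2 hadj'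
          have h2 : ∑ S : Finset V, g S / 2 * ((φ S a p).length : ℝ) =
              (∑ S ∈ univ.filter (fun S : Finset V => ¬ (p.1 ∈ S ↔ p.2 ∈ S)), g S) / 2 *
                ((H a p.1 p.2).length : ℝ) := by
            rw [Finset.sum_div, Finset.sum_mul, Finset.sum_filter]
            refine Finset.sum_congr rfl fun S _ => ?_
            simp only [φ]
            split_ifs <;> simp
          rw [h2]
          have h3 : (0 : ℝ) ≤ (H a p.1 p.2).length := Nat.cast_nonneg _
          nlinarith
    _ = ∑ u, ∑ v, ((H a u v).length : ℝ) := Fintype.sum_prod_type _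
    _ ≤ c := hc'

end Pool.Agent.Q320.EqTest
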