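import Pool.Agent.Q320.EqTest.Defs
import Mathlib.Combinatorics.SimpleGraph.Connectivity.Connected
import Mathlib.Combinatorics.SimpleGraph.Paths
import Mathlib.Tactic

/-!
# Protocols with a fixed schedule
-/

namespace Pool.Agent.Q320.EqTest

open Finset

variable {V : Type} [DecidableEq V] {σ : Type}

/-- an instruction of a fixed schedule: `src` sends the bit `out s` (`s` its state) to `dst`, which
updates its state -/
structure Instr (V σ : Type) where
  src : V
  dst : V
  out : σ → Bool
  upd : σ → Bool → σ

/-- the program of the player `v` -/
def compile (fin : σ → Bool) (v : V) : σ → List (Instr V σ) → Prog V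
  | st, [] => Prog.stop (fin st)
  | st, i :: l => if v = i.src then Prog.send i.dst (i.out st) (compile fin v st l)
      else if v = i.dst then Prog.recv i.src (fun b => compile fin v (i.upd st b) l)
      else compile fin v st l

/-- the effect of an instruction -/
def exec1 (i : Instr V σ) (st : V → σ) : V → σ :=
  Function.update st i.dst (i.upd (st i.dst) (i.out (st i.src)))

/-- the effect of a schedule -/
def exec : (V → σ) → List (Instr V σ) → V → σ
  | st, [] => st
  | st, i :: l => exec (exec1 i st) l

theorem exec_append (st : V → σ) (l l' : List (Instr V σ)) :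
    exec st (l ++ l') = exec (exec st l) l' := by
  induction l generalizing st with
  | nil => rfl
  | cons i l ih => exact ih _

theorem compile_uses (G : SimpleGraph V) (fin : σ → Bool) (v : V) (st : σ) (l : List (Instr V σ))
    (h : ∀ i ∈ l, G.Adj i.src i.dst) : (compile fin v st l).Uses G v := by
  induction l generalizing st with
  | nil => simp [compile, Prog.Uses]
  | cons i l ih =>
    have ih' := fun st => ih st (fun j hj => h j (List.mem_cons_of_mem _ hj))
    have hi := h i List.mem_cons_self
    unfold compile
    split_ifs with h1 h2
    · exact ⟨h1 ▸ hi, ih' _⟩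
    · exact ⟨h2 ▸ hi.symm, fun b => ih' _⟩
    · exact ih' _

theorem run_script (fin : σ → Bool) (l : List (Instr V σ)) (hl : ∀ i ∈ l, i.src ≠ i.dst) :
    ∀ (st : V → σ) (k : ℕ), Relation.ReflTransGen Step
      (⟨fun v => compile fin v (st v) l, fun _ _ => [], k⟩ : State V)
      ⟨fun v => Prog.stop (fin (exec st l v)), fun _ _ => [], k + l.length⟩ := by
  induction l with
  | nil => intro st k; exact Relation.ReflTransGen.refl
  | cons i l ih =>
    intro st k
    have ih' := ih (fun j hj => hl j (List.mem_cons_of_mem _ hj)) (exec1 i st) (k + 1)
    have hne := hl i List.mem_cons_self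
    have hlen : k + (i :: l).length = k + 1 + l.length := by simp; omega
    rw [hlen]
    have s1 := Step.send (⟨fun v => compile fin v (st v) (i :: l), fun _ _ => [], k⟩ : State V)
      i.src i.dst (i.out (st i.src)) (compile fin i.src (st i.src) l) (by simp [compile])
    have s2 := Step.recv (⟨Function.update (fun v => compile fin v (st v) (i :: l)) i.src
        (compile fin i.src (st i.src) l),
        fun x y => if x = i.src ∧ y = i.dst then ([] : List Bool) ++ [i.out (st i.src)] else [],
        k + 1⟩ : State V) i.dst i.src (i.out (st i.src))
      (fun b => compile fin i.dst (i.upd (st i.dst) b) l) []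
      (by
        show (Function.update (fun v => compile fin v (st v) (i :: l)) i.src
          (compile fin i.src (st i.src) l)) i.dst = _
        rw [Function.update_of_ne hne.symm]
        simp [compile, hne.symm])
      (by
        show (if i.src = i.src ∧ i.dst = i.dst then ([] : List Bool) ++ [i.out (st i.src)]
          else []) = _
        simp)
    refine Relation.ReflTransGen.head s1 (Relation.ReflTransGen.head s2 ?_)
    convert ih' using 1
    simp only [State.mk.injEq, and_true]
    refine ⟨?_, ?_⟩
    · funext v
      by_cases h1 : v = i.dst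
      · subst h1
        simp [exec1]
      · rw [Function.update_of_ne h1]
        by_cases h2 : v = i.src
        · subst h2
          simp [exec1, h1]
        · rw [Function.update_of_ne h2]
          simp [compile, h1, h2, exec1]
    · funext x y
      by_cases hxy : x = i.src ∧ y = i.dst
      · simp [hxy]
      · simp [hxy]
    rfl

/-! ### comparing labels -/

/-- the states: the input and a flag -/
abbrev St (n : ℕ) := (Fin n → Bool) × Bool

/-- `u` sends the bit `h (input)` to `v`, which compares it with its own -/
def chk {n : ℕ} (u v : V) (h : (Fin n → Bool) → Bool) : Instr V (St n) where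
  src := u
  dst := v
  out := fun s => h s.1
  upd := fun s b => (s.1, s.2 && (b == h s.1))

theorem exec_chk {n : ℕ} (l : List (V × V × ((Fin n → Bool) → Bool))) (st : V → St n) :
    (∀ v, (exec st (l.map fun p => chk p.1 p.2.1 p.2.2) v).1 = (st v).1) ∧
    ∀ v, ((exec st (l.map fun p => chk p.1 p.2.1 p.2.2) v).2 = true ↔
      (st v).2 = true ∧ ∀ p ∈ l, p.2.1 = v → p.2.2 (st p.1).1 = p.2.2 (st v).1) := by
  induction l generalizing st with
  | nil => simp [exec]
  | cons p l ih =>
    obtain ⟨h1, h2⟩ := ih (exec1 (chk p.1 p.2.1 p.2.2) st)
    have e1 : ∀ v, (exec1 (chk p.1 p.2.1 p.2.2) st v).1 = (st v).1 := by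
      intro v
      unfold exec1 chk
      by_cases hv : v = p.2.1
      · subst hv; simp
      · simp [hv]
    constructor
    · intro v
      rw [List.map_cons]
      show (exec (exec1 (chk p.1 p.2.1 p.2.2) st) _ v).1 = _
      rw [h1 v, e1]
    · intro v
      rw [List.map_cons]
      show (exec (exec1 (chk p.1 p.2.1 p.2.2) st) _ v).2 = true ↔ _
      rw [h2 v]
      simp only [e1, List.mem_cons, forall_eq_or_imp]
      have e2 : (exec1 (chk p.1 p.2.1 p.2.2) st v).2 = true ↔
          ((st v).2 = true ∧ (p.2.1 = v → p.2.2 (st p.1).1 = p.2.2 (st v).1)) := by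
        unfold exec1 chk
        by_cases hv : v = p.2.1
        · subst hv; simp
        · have : p.2.1 ≠ v := fun h => hv h.symm
          simp [hv, this]
      rw [e2]
      tauto

/-! ### flooding -/

/-- `u` sends its flag to `v` -/
def fld {n : ℕ} (u v : V) : Instr V (St n) where
  src := u
  dst := v
  out := fun s => s.2
  upd := fun s b => (s.1, s.2 && b)

theorem fld_mono1 {n : ℕ} (u w : V) (st : V → St n) (v : V)
    (h : (exec1 (fld u w) st v).2 = true) : (st v).2 = true := by
  unfold exec1 fld at h
  by_cases hv : v = w
  · subst hv
    simp at h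
    exact h.1
  · simpa [hv] using h

theorem fld_mono {n : ℕ} (l : List (V × V)) (st : V → St n) (v : V)
    (h : (exec st (l.map fun p => fld p.1 p.2) v).2 = true) : (st v).2 = true := by
  induction l generalizing st with
  | nil => exact h
  | cons p l ih => exact fld_mono1 _ _ _ _ (ih _ h)

theorem fld_all {n : ℕ} (l : List (V × V)) (st : V → St n) (h : ∀ v, (st v).2 = true) :
    ∀ v, (exec st (l.map fun p => fld p.1 p.2) v).2 = true := by
  induction l generalizing st with
  | nil => exact h
  | cons p l ih =>
    refine ih _ ?_
    intro v
    unfold exec1 fld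
    by_cases hv : v = p.2
    · subst hv; simp [h]
    · simp [hv, h]

theorem fld_spread {n : ℕ} (l : List (V × V)) (u v : V) (huv : (u, v) ∈ l) (st : V → St n)
    (h : (st u).2 = false) : (exec st (l.map fun p => fld p.1 p.2) v).2 = false := by
  induction l generalizing st with
  | nil => simp at huv
  | cons p l ih =>
    rw [List.mem_cons] at huv
    rcases huv with rfl | huv
    · rw [List.map_cons]
      show (exec (exec1 (fld u v) st) _ v).2 = false
      by_contra hcon
      rw [Bool.not_eq_false] at hcon
      have h1 := fld_mono l _ v hcon
      unfold exec1 fld at h1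
      simp [h] at h1
    · refine ih huv _ ?_
      by_contra hcon
      rw [Bool.not_eq_false] at hcon
      have := fld_mono1 _ _ _ _ hcon
      rw [h] at this
      exact Bool.noConfusion this

/-- repeated rounds -/
def rounds (l : List (V × V)) : ℕ → List (V × V)
  | 0 => []
  | m + 1 => l ++ rounds l m

omit [DecidableEq V] in
theorem rounds_length (l : List (V × V)) (m : ℕ) : (rounds l m).length = m * l.length := by
  induction m with
  | zero => simp [rounds]
  | succ m ih => simp [rounds, ih]; ring

omit [DecidableEq V] in
theorem mem_rounds (l : List (V × V)) (m : ℕ) (p : V × V) (h : p ∈ rounds l m) : p ∈ l := by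
  induction m with
  | zero => simp [rounds] at h
  | succ m ih =>
    rw [rounds, List.mem_append] at h
    rcases h with h | h
    · exact h
    · exact ih h

theorem flood {n : ℕ} (G : SimpleGraph V) (l : List (V × V)) (hl : ∀ u v, G.Adj u v → (u, v) ∈ l)
    (m : ℕ) : ∀ (st : V → St n) (u v : V) (p : G.Walk u v), p.length ≤ m → (st u).2 = false →
      (exec st ((rounds l m).map fun p => fld p.1 p.2) v).2 = false := by
  induction m with
  | zero =>
    intro st u v p hp h
    cases p with
    | nil => exact h
    | cons _ _ => simp at hp
  | succ m ih =>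
    intro st u v p hp h
    rw [rounds, List.map_append, exec_append]
    cases p with
    | nil =>
      refine ih _ u u SimpleGraph.Walk.nil (by simp) ?_
      by_contra hcon
      rw [Bool.not_eq_false] at hcon
      have := fld_mono _ _ _ hcon
      rw [h] at this
      exact Bool.noConfusion this
    | cons hadj q =>
      rw [SimpleGraph.Walk.length_cons] at hp
      exact ih _ _ v q (by omega) (fld_spread l u _ (hl _ _ hadj) st h)

theorem fld_fst {n : ℕ} (l : List (V × V)) (st : V → St n) (v : V) :
    (exec st (l.map fun p => fld p.1 p.2) v).1 = (st v).1 := by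
  induction l generalizing st with
  | nil => rfl
  | cons p l ih =>
    rw [List.map_cons]
    show (exec (exec1 (fld p.1 p.2) st) _ v).1 = _
    rw [ih]
    unfold exec1 fld
    by_cases hv : v = p.2
    · subst hv; simp
    · simp [hv]

/-- **Upper bound from labels.** -/
theorem upper_of_labels [Fintype V] (G : SimpleGraph V) (hG : G.Connected) {E : Type} [Fintype E]
    (a b : E → V) (hab : ∀ e, G.Adj (a e) (b e)) (n L : ℕ)
    (lab : E → (Fin n → Bool) → (Fin L → Bool))
    (hkey : ∀ x : V → (Fin n → Bool), (∀ e, lab e (x (a e)) = lab e (x (b e))) → ∀ u v, x u = x v) :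
    ∃ P : V → (Fin n → Bool) → Prog V,
      Decides G n P (Fintype.card E * L + Fintype.card V ^ 3) := by
  classical
  let l1 : List (V × V × ((Fin n → Bool) → Bool)) :=
    (univ : Finset (E × Fin L)).toList.map fun p => (a p.1, b p.1, fun x => lab p.1 x p.2)
  let l2 : List (V × V) := (univ.filter fun p : V × V => G.Adj p.1 p.2).toList
  have hl2 : ∀ u v, (u, v) ∈ l2 ↔ G.Adj u v := by
    intro u v
    simp [l2]
  let K := Fintype.card V
  let sc : List (Instr V (St n)) := (l1.map fun p => chk p.1 p.2.1 p.2.2) ++
    ((rounds l2 K).map fun p => fld p.1 p.2)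
  have hsc : ∀ i ∈ sc, G.Adj i.src i.dst := by
    intro i hi
    rw [List.mem_append] at hi
    rcases hi with hi | hi
    · obtain ⟨p, hp, rfl⟩ := List.mem_map.1 hi
      obtain ⟨q, -, rfl⟩ := List.mem_map.1 hp
      exact hab q.1
    · obtain ⟨p, hp, rfl⟩ := List.mem_map.1 hi
      exact (hl2 p.1 p.2).1 (mem_rounds _ _ _ hp)
  refine ⟨fun v x => compile (fun s : St n => s.2) v (x, true) sc, ?_, ?_⟩
  · intro v x
    exact compile_uses G _ v _ sc hsc
  · intro x
    refine ⟨_, run_script (fun s : St n => s.2) sc (fun i hi => (hsc i hi).ne)
      (fun v => (x v, true)) 0, ?_, ?_⟩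
    · intro v
      refine ⟨_, rfl, ?_⟩
      simp only [sc]
      rw [exec_append]
      obtain ⟨h1, h2⟩ := exec_chk l1 (fun v => ((x v, true) : St n))
      set st := exec (fun v => ((x v, true) : St n)) (l1.map fun p => chk p.1 p.2.1 p.2.2) with hst
      have hall : (∀ v, (st v).2 = true) ↔ ∀ e, lab e (x (a e)) = lab e (x (b e)) := by
        constructor
        · intro h e
          funext j
          have h3 := ((h2 (b e)).1 (h (b e))).2 (a e, b e, fun x => lab e x j)
            (List.mem_map.2 ⟨(e, j), by simp, rfl⟩) rfl
          exact h3
        · intro h v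
          rw [h2 v]
          refine ⟨rfl, ?_⟩
          intro p hp hpv
          obtain ⟨q, -, rfl⟩ := List.mem_map.1 hp
          simp only at hpv ⊢
          subst hpv
          rw [h q.1]
      constructor
      · intro h u w
        have h3 : ∀ v, (st v).2 = true := by
          intro u'
          by_contra hcon
          rw [Bool.not_eq_true] at hcon
          obtain ⟨p⟩ := hG.preconnected u' v
          have h4 := flood G l2 (fun u v h => (hl2 u v).2 h) K st u' v (p.toPath : G.Walk u' v)
            (p.toPath.2.length_lt).le hcon
          rw [h4] at h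
          exact Bool.noConfusion h
        exact hkey x (hall.1 h3) u w
      · intro h
        have h3 : ∀ v, (st v).2 = true := hall.2 fun e => by rw [h (a e) (b e)]
        exact fld_all _ st h3 v
    · show 0 + sc.length ≤ _
      have h1 : l1.length = Fintype.card E * L := by
        simp [l1]
      have h2 : l2.length ≤ K * K := by
        simp only [l2, Finset.length_toList]
        calc (univ.filter fun p : V × V => G.Adj p.1 p.2).card ≤ Fintype.card (V × V) :=
              card_le_univ _
          _ = K * K := by rw [Fintype.card_prod]
      have h3 : sc.length = l1.length + K * l2.length := by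
        simp [sc, rounds_length]
      rw [h3, h1, zero_add]
      have : K * l2.length ≤ K ^ 3 := by
        calc K * l2.length ≤ K * (K * K) := Nat.mul_le_mul_left _ h2
          _ = K ^ 3 := by ring
      exact Nat.add_le_add_left this _

end Pool.Agent.Q320.EqTest
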