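import Pool.Agent.Q320.EqTest.Alg2
import Pool.Agent.Q320.EqTest.Script
import Mathlib.Combinatorics.Pigeonhole

/-!
# The pigeonhole argument: protocols from local quadratic forms
-/

set_option autoImplicit false

namespace Pool.Agent.Q320.EqTest

open Finset Alg

/-- A rational linear form takes few values on a box. -/
theorem val_count {T : Type} [Fintype T] (c : T → ℚ) :
    ∃ C : ℕ, ∀ (M : ℕ), 1 ≤ M → ∀ (A : Type) [Fintype A] (t : A → T → ℕ), (∀ x m, t x m ≤ M) →
      (univ.image (fun x => ∑ m, c m * (t x m : ℚ))).card ≤ 2 ^ C * M := by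
  classical
  let Δ : ℕ := ∏ m, (c m).den
  have hΔ : (Δ : ℚ) ≠ 0 := by
    have : Δ ≠ 0 := Finset.prod_ne_zero_iff.2 fun m _ => (c m).den_nz
    exact_mod_cast this
  have hk : ∀ m, ∃ k : ℤ, c m * Δ = k := by
    intro m
    obtain ⟨q, hq⟩ : (c m).den ∣ Δ := Finset.dvd_prod_of_mem (fun m => (c m).den) (mem_univ m)
    refine ⟨(c m).num * q, ?_⟩
    rw [hq]
    push_cast
    rw [← mul_assoc, Rat.mul_den_eq_num]
  choose k hk using hk
  let K : ℕ := ∑ m, (k m).natAbs
  refine ⟨2 * K + 1, fun M hM A _ t ht => ?_⟩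
  have hsub : univ.image (fun x => ∑ m, c m * (t x m : ℚ)) ⊆
      (Finset.Icc (-(K * M : ℤ)) (K * M)).image (fun z : ℤ => (z : ℚ) / Δ) := by
    intro v hv
    obtain ⟨x, -, rfl⟩ := mem_image.1 hv
    refine mem_image.2 ⟨∑ m, k m * (t x m : ℤ), ?_, ?_⟩
    · rw [Finset.mem_Icc, ← abs_le]
      calc |∑ m, k m * (t x m : ℤ)| ≤ ∑ m, |k m * (t x m : ℤ)| := Finset.abs_sum_le_sum_abs _ _
        _ ≤ ∑ m, ((k m).natAbs : ℤ) * M := by
            refine Finset.sum_le_sum fun m _ => ?_
            rw [abs_mul, Int.natCast_natAbs]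
            refine mul_le_mul_of_nonneg_left ?_ (abs_nonneg _)
            rw [abs_of_nonneg (by positivity)]
            exact_mod_cast ht x m
        _ = K * M := by
            rw [← Finset.sum_mul]
            push_cast [K]
            rfl
    · rw [div_eq_iff hΔ, Finset.sum_mul]
      push_cast
      refine Finset.sum_congr rfl fun m _ => ?_
      rw [← hk m]
      ring
  calc (univ.image (fun x => ∑ m, c m * (t x m : ℚ))).card
      ≤ ((Finset.Icc (-(K * M : ℤ)) (K * M)).image (fun z : ℤ => (z : ℚ) / Δ)).card :=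
        card_le_card hsub
    _ ≤ (Finset.Icc (-(K * M : ℤ)) (K * M)).card := card_image_le
    _ = 2 * (K * M) + 1 := by rw [Int.card_Icc]; omega
    _ ≤ (2 * K + 1) * M := by nlinarith
    _ ≤ 2 ^ (2 * K + 1) * M := Nat.mul_le_mul_right _ (Nat.lt_two_pow_self).le

/-- **Protocols from cuts.** -/
theorem upper_of_cuts {V : Type} [Fintype V] [DecidableEq V] (G : SimpleGraph V) (hG : G.Connected)
    {E : Type} [Fintype E] [DecidableEq E] (a b : E → V) (hab : ∀ e, G.Adj (a e) (b e)) (w : V)
    (r : ℕ) (hcut : ∀ S : Finset V, w ∈ S → S ≠ univ →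
      r ≤ (univ.filter fun e => ¬ (a e ∈ S ↔ b e ∈ S)).card) :
    ∃ c₁ c₂ : ℕ, ∀ n l : ℕ, (2 * l + c₂) * Fintype.card V + n ≤ r * l →
      ∃ P : V → (Fin n → Bool) → Prog V,
        Decides G n P (Fintype.card E * (l + c₁) + Fintype.card V ^ 3) := by
  classical
  obtain ⟨B, hB, hinj⟩ := exists_fam a b w r hcut
  obtain ⟨Y, hY1, hY2⟩ := exists_solution hB
  -- expansions
  have hYexp : ∀ (x : Fin r → ℚ) (e : E), Y x (Sum.inl e) =
      ∑ i, Y (Pi.single i 1) (Sum.inl e) * x i := by
    intro x e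
    have h1 : x = ∑ j, x j • (Pi.single j (1 : ℚ) : Fin r → ℚ) := by
      funext k
      simp [Finset.sum_apply, Pi.single_apply]
    conv_lhs => rw [h1]
    rw [map_sum, Finset.sum_apply]
    refine Finset.sum_congr rfl fun i _ => ?_
    rw [map_smul, Pi.smul_apply, smul_eq_mul, mul_comm]
  have hqexp : ∀ (x : Fin r → ℚ) (u : V), B u (Y x) (Y x) =
      ∑ p : Fin r × Fin r, B u (Y (Pi.single p.1 1)) (Y (Pi.single p.2 1)) * (x p.1 * x p.2) := by
    intro x u
    have h1 : x = ∑ j, x j • (Pi.single j (1 : ℚ) : Fin r → ℚ) := by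
      funext k
      simp [Finset.sum_apply, Pi.single_apply]
    have hY : Y x = ∑ j, x j • Y (Pi.single j 1) := by
      conv_lhs => rw [h1]
      rw [map_sum]
      exact Finset.sum_congr rfl fun i _ => map_smul _ _ _
    rw [Fintype.sum_prod_type, hY]
    have h2 : ∀ z, B u (∑ j, x j • Y (Pi.single j 1)) z = ∑ j, x j * B u (Y (Pi.single j 1)) z := by
      intro z
      rw [map_sum, LinearMap.sum_apply]
      refine Finset.sum_congr rfl fun i _ => ?_
      rw [map_smul, LinearMap.smul_apply, smul_eq_mul]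
    rw [h2]
    refine Finset.sum_congr rfl fun i _ => ?_
    rw [map_sum, Finset.mul_sum]
    refine Finset.sum_congr rfl fun j _ => ?_
    rw [map_smul, smul_eq_mul]
    ring
  choose C hC using fun e : E => val_count (fun i : Fin r => Y (Pi.single i 1) (Sum.inl e))
  choose D hD using fun u : V => val_count
    (fun p : Fin r × Fin r => B u (Y (Pi.single p.1 1)) (Y (Pi.single p.2 1)))
  refine ⟨∑ e, C e, ∑ u, D u, ?_⟩
  intro n l hnl
  set c₁ := ∑ e, C e with hc₁
  set c₂ := ∑ u, D u with hc₂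
  let A := Fin r → Fin (2 ^ l)
  let X : A → (Fin r → ℚ) := fun x i => ((x i : ℕ) : ℚ)
  have hpos : 1 ≤ 2 ^ l := Nat.one_le_two_pow
  have hlab : ∀ e, (univ.image (fun x : A => Y (X x) (Sum.inl e))).card ≤ 2 ^ (l + c₁) := by
    intro e
    have h1 := hC e (2 ^ l) hpos A (fun x i => (x i : ℕ)) (fun x i => (x i).isLt.le)
    have h2 : (fun x : A => Y (X x) (Sum.inl e)) =
        fun x : A => ∑ i, Y (Pi.single i 1) (Sum.inl e) * (((x i : ℕ)) : ℚ) := by
      funext x
      rw [hYexp]
    rw [h2]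
    refine h1.trans ?_
    rw [← pow_add]
    refine Nat.pow_le_pow_right (by norm_num) ?_
    have : C e ≤ c₁ := Finset.single_le_sum (f := C) (fun _ _ => Nat.zero_le _) (mem_univ e)
    omega
  have hval : ∀ u, (univ.image (fun x : A => B u (Y (X x)) (Y (X x)))).card ≤
      2 ^ (2 * l + c₂) := by
    intro u
    have h1 := hD u (2 ^ (2 * l)) Nat.one_le_two_pow A (fun x p => (x p.1 : ℕ) * (x p.2 : ℕ))
      (fun x p => by
        calc (x p.1 : ℕ) * (x p.2 : ℕ) ≤ 2 ^ l * 2 ^ l :=
              Nat.mul_le_mul (x p.1).isLt.le (x p.2).isLt.le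
          _ = 2 ^ (2 * l) := by rw [← pow_add]; congr 1; omega)
    have h2 : (fun x : A => B u (Y (X x)) (Y (X x))) =
        fun x : A => ∑ p : Fin r × Fin r, B u (Y (Pi.single p.1 1)) (Y (Pi.single p.2 1)) *
          (((x p.1 : ℕ) * (x p.2 : ℕ) : ℕ) : ℚ) := by
      funext x
      rw [hqexp]
      refine Finset.sum_congr rfl fun p _ => ?_
      simp only [X]
      push_cast
      rfl
    rw [h2]
    refine h1.trans ?_
    rw [← pow_add]
    refine Nat.pow_le_pow_right (by norm_num) ?_
    have : D u ≤ c₂ := Finset.single_le_sum (f := D) (fun _ _ => Nat.zero_le _) (mem_univ u)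
    omega
  -- the pigeonhole principle
  let Q : A → (V → ℚ) := fun x u => B u (Y (X x)) (Y (X x))
  let Tt : Finset (V → ℚ) := Fintype.piFinset fun u => univ.image (fun x : A => Q x u)
  have hmaps : ∀ x ∈ (univ : Finset A), Q x ∈ Tt := by
    intro x _
    rw [Fintype.mem_piFinset]
    intro u
    exact mem_image_of_mem _ (mem_univ x)
  have hTt : Tt.card ≤ 2 ^ ((2 * l + c₂) * Fintype.card V) := by
    rw [Fintype.card_piFinset]
    calc ∏ u, (univ.image (fun x : A => Q x u)).card ≤ ∏ _u : V, 2 ^ (2 * l + c₂) :=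
          Finset.prod_le_prod' fun u _ => hval u
      _ = 2 ^ ((2 * l + c₂) * Fintype.card V) := by
          rw [Finset.prod_const, ← pow_mul, card_univ]
  have hne : Tt.Nonempty := ⟨Q (fun _ => ⟨0, hpos⟩), hmaps _ (mem_univ _)⟩
  obtain ⟨y, -, hy⟩ := Finset.exists_le_card_fiber_of_mul_le_card_of_maps_to (n := 2 ^ n) hmaps hne
    (by
      calc Tt.card * 2 ^ n ≤ 2 ^ ((2 * l + c₂) * Fintype.card V) * 2 ^ n :=
            Nat.mul_le_mul_right _ hTt
        _ = 2 ^ ((2 * l + c₂) * Fintype.card V + n) := by rw [pow_add]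
        _ ≤ 2 ^ (r * l) := Nat.pow_le_pow_right (by norm_num) hnl
        _ = (univ : Finset A).card := by
            rw [card_univ, Fintype.card_fun, Fintype.card_fin, Fintype.card_fin, ← pow_mul,
              mul_comm])
  let F := {x : A // Q x = y}
  have hF : Fintype.card (Fin n → Bool) ≤ Fintype.card F := by
    rw [Fintype.card_subtype]
    simpa using hy
  obtain ⟨ι⟩ := Function.Embedding.nonempty_of_card_le hF
  -- the labels
  have hemb : ∀ e, Nonempty
      ({v // v ∈ univ.image (fun x : A => Y (X x) (Sum.inl e))} ↪ (Fin (l + c₁) → Bool)) := by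
    intro e
    apply Function.Embedding.nonempty_of_card_le
    rw [Fintype.card_coe]
    simpa using hlab e
  let emb := fun e => (hemb e).some
  let lab : E → (Fin n → Bool) → (Fin (l + c₁) → Bool) := fun e x =>
    emb e ⟨Y (X (ι x).1) (Sum.inl e), mem_image_of_mem _ (mem_univ _)⟩
  refine upper_of_labels G hG a b hab n (l + c₁) lab ?_
  intro x hx
  have hx' : ∀ u, X (ι (x u)).1 = X (ι (x w)).1 := by
    refine rigid hB hinj Y hY1 hY2 (fun u => X (ι (x u)).1) ?_ ?_
    · intro e
      have := (emb e).injective (hx e)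
      exact congrArg Subtype.val this
    · intro u
      have h1 := congrFun (ι (x u)).2 u
      have h2 := congrFun (ι (x w)).2 u
      exact h1.trans h2.symm
  have hx'' : ∀ u, x u = x w := by
    intro u
    apply ι.injective
    apply Subtype.ext
    funext i
    have := congrFun (hx' u) i
    simp only [X] at this
    exact Fin.ext (by exact_mod_cast this)
  intro u v
  rw [hx'' u, hx'' v]

end Pool.Agent.Q320.EqTest
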