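import Pool.Agent.Q320.EqTest.LP
import Pool.Agent.Q320.EqTest.Pigeon
import Mathlib.Analysis.SpecificLimits.Normed

/-!
# `f(G) = fc(G)`
-/

set_option autoImplicit false

namespace Pool.Agent.Q320.EqTest

open Finset Filter Topology

variable {V : Type} [Fintype V] [DecidableEq V]

/-- protocols for a given connectivity `r` -/
theorem upper_r {G : SimpleGraph V} (hG : G.Connected) (r : ℕ) (hr : 2 * Fintype.card V < r) :
    ∃ (C : ℝ), ∀ n : ℕ, ∃ (c : ℕ) (P : V → (Fin n → Bool) → Prog V), Decides G n P c ∧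
      (c : ℝ) ≤ (r * fc G + (Fintype.card V : ℝ) ^ 2) / (r - 2 * Fintype.card V) * n + C := by
  classical
  obtain ⟨w, hw0, hw1, hw2⟩ := exists_weights hG
  let Pr := {p : V × V // G.Adj p.1 p.2}
  let E := Σ p : Pr, Fin ⌈w p * r⌉₊
  let a : E → V := fun e => e.1.1.1
  let b : E → V := fun e => e.1.1.2
  have hab : ∀ e, G.Adj (a e) (b e) := fun e => e.1.2
  obtain ⟨root⟩ := hG.nonempty
  have hcut : ∀ S : Finset V, root ∈ S → S ≠ univ →
      r ≤ (univ.filter fun e : E => ¬ (a e ∈ S ↔ b e ∈ S)).card := by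
    intro S hS hS'
    have h1 := hw2 S (fun h => by rw [h] at hS; exact absurd hS (notMem_empty _)) hS'
    have h2 : (univ.filter fun e : E => ¬ (a e ∈ S ↔ b e ∈ S)).card =
        ∑ p ∈ univ.filter (fun p : Pr => ¬ (p.1.1 ∈ S ↔ p.1.2 ∈ S)), ⌈w p * r⌉₊ := by
      have h3 : (univ.filter fun e : E => ¬ (a e ∈ S ↔ b e ∈ S)) =
          (univ.filter (fun p : Pr => ¬ (p.1.1 ∈ S ↔ p.1.2 ∈ S))).sigma (fun _ => univ) := by
        ext e
        rw [Finset.mem_filter]
        constructor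
        · intro h
          exact Finset.mem_sigma.2 ⟨Finset.mem_filter.2 ⟨mem_univ _, h.2⟩, mem_univ _⟩
        · intro h
          exact ⟨mem_univ _, (Finset.mem_filter.1 (Finset.mem_sigma.1 h).1).2⟩
      rw [h3, Finset.card_sigma]
      refine Finset.sum_congr rfl fun p _ => ?_
      simp
    have h3 : (r : ℝ) ≤ ((univ.filter fun e : E => ¬ (a e ∈ S ↔ b e ∈ S)).card : ℝ) := by
      rw [h2]
      push_cast
      calc (r : ℝ) = 1 * r := by ring
        _ ≤ (∑ p ∈ univ.filter (fun p : Pr => ¬ (p.1.1 ∈ S ↔ p.1.2 ∈ S)), w p) * r :=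
            mul_le_mul_of_nonneg_right h1 (Nat.cast_nonneg r)
        _ = ∑ p ∈ univ.filter (fun p : Pr => ¬ (p.1.1 ∈ S ↔ p.1.2 ∈ S)), w p * r := by
            rw [Finset.sum_mul]
        _ ≤ _ := Finset.sum_le_sum fun p _ => Nat.le_ceil _
    exact_mod_cast h3
  have hE : (Fintype.card E : ℝ) ≤ r * fc G + (Fintype.card V : ℝ) ^ 2 := by
    have h1 : Fintype.card E = ∑ p : Pr, ⌈w p * r⌉₊ := by
      rw [Fintype.card_sigma]
      refine Finset.sum_congr rfl fun p _ => ?_
      simp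
    have h2 : (Fintype.card Pr : ℝ) ≤ (Fintype.card V : ℝ) ^ 2 := by
      have : Fintype.card Pr ≤ Fintype.card (V × V) := Fintype.card_subtype_le _
      rw [Fintype.card_prod] at this
      rw [sq]
      exact_mod_cast this
    rw [h1]
    push_cast
    calc ∑ p : Pr, (⌈w p * r⌉₊ : ℝ) ≤ ∑ p : Pr, (w p * r + 1) :=
          Finset.sum_le_sum fun p _ => (Nat.ceil_lt_add_one
            (mul_nonneg (hw0 p) (Nat.cast_nonneg r))).le
      _ = (∑ p : Pr, w p) * r + Fintype.card Pr := by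
          rw [Finset.sum_add_distrib, Finset.sum_mul]
          simp
      _ ≤ fc G * r + (Fintype.card V : ℝ) ^ 2 :=
          add_le_add (mul_le_mul_of_nonneg_right hw1 (Nat.cast_nonneg r)) h2
      _ = _ := by ring
  obtain ⟨c₁, c₂, hup⟩ := upper_of_cuts G hG a b hab root r hcut
  set k := Fintype.card V with hk
  have hrk : (0 : ℝ) < r - 2 * k := by
    have : (2 * k : ℝ) < r := by exact_mod_cast hr
    linarith
  refine ⟨(Fintype.card E : ℝ) * ((c₂ : ℝ) * k / (r - 2 * k) + 1 + c₁) + (k : ℝ) ^ 3, fun n => ?_⟩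
  let l := (n + c₂ * k) / (r - 2 * k) + 1
  have hl : (2 * l + c₂) * k + n ≤ r * l := by
    have h1 : n + c₂ * k ≤ (r - 2 * k) * l := by
      have hpos : 0 < r - 2 * k := by omega
      have := Nat.lt_mul_div_succ (n + c₂ * k) hpos
      exact this.le
    have h2 : r * l = (r - 2 * k) * l + 2 * k * l := by
      rw [← add_mul]
      congr 1
      omega
    rw [h2]
    nlinarith
  obtain ⟨P, hP⟩ := hup n l hl
  refine ⟨_, P, hP, ?_⟩
  have hl' : (l : ℝ) ≤ (n + c₂ * k) / (r - 2 * k) + 1 := by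
    have h1 : ((((n + c₂ * k) / (r - 2 * k) : ℕ)) : ℝ) ≤ ((n + c₂ * k : ℕ) : ℝ) / ((r - 2 * k : ℕ) : ℝ) :=
      Nat.cast_div_le
    have h2 : ((r - 2 * k : ℕ) : ℝ) = r - 2 * k := by
      rw [Nat.cast_sub hr.le]
      push_cast
      ring
    rw [h2] at h1
    push_cast at h1
    simp only [l]
    push_cast
    linarith
  have hE0 : (0 : ℝ) ≤ Fintype.card E := Nat.cast_nonneg _
  push_cast
  calc (Fintype.card E : ℝ) * ((l : ℝ) + c₁) + (k : ℝ) ^ 3
      ≤ (Fintype.card E : ℝ) * (((n : ℝ) + c₂ * k) / (r - 2 * k) + 1 + c₁) + (k : ℝ) ^ 3 := by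
        have := mul_le_mul_of_nonneg_left (add_le_add_left hl' (c₁ : ℝ)) hE0
        linarith
    _ = (Fintype.card E : ℝ) / (r - 2 * k) * n + ((Fintype.card E : ℝ) *
          ((c₂ : ℝ) * k / (r - 2 * k) + 1 + c₁) + (k : ℝ) ^ 3) := by
        field_simp
        ring
    _ ≤ ((r : ℝ) * fc G + (k : ℝ) ^ 2) / (r - 2 * k) * n + ((Fintype.card E : ℝ) *
          ((c₂ : ℝ) * k / (r - 2 * k) + 1 + c₁) + (k : ℝ) ^ 3) := by
        have h1 : (Fintype.card E : ℝ) / (r - 2 * k) ≤ (r * fc G + (k : ℝ) ^ 2) / (r - 2 * k) :=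
          div_le_div_of_nonneg_right hE hrk.le
        have h2 := mul_le_mul_of_nonneg_right h1 (Nat.cast_nonneg (α := ℝ) n)
        linarith

/-- the optimal protocol -/
theorem cost_spec {G : SimpleGraph V} (hG : G.Connected) (n : ℕ) :
    ∃ P : V → (Fin n → Bool) → Prog V, Decides G n P (cost G n) := by
  have hne : {c : ℕ | ∃ P : V → (Fin n → Bool) → Prog V, Decides G n P c}.Nonempty := by
    obtain ⟨C, h⟩ := upper_r hG (2 * Fintype.card V + 1) (by omega)
    obtain ⟨c, P, hP, -⟩ := h n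
    exact ⟨c, P, hP⟩
  exact Nat.sInf_mem hne

theorem poly_lt_exp (K C m : ℕ) : ∃ q₀ : ℕ, ∀ q, q₀ ≤ q → C * (m * (q + 1)) ^ K < 2 ^ q := by
  have h1 : Tendsto (fun n : ℕ => (n : ℝ) ^ K / 2 ^ n) atTop (𝓝 0) :=
    tendsto_pow_const_div_const_pow_of_one_lt K (by norm_num)
  have h2 := h1.comp (tendsto_add_atTop_nat 1)
  have hpos : (0 : ℝ) < 1 / (2 * (C * m ^ K + 1)) := by positivity
  have h3 := (tendsto_order.1 h2).2 _ hpos
  obtain ⟨q₀, hq₀⟩ := eventually_atTop.1 h3
  refine ⟨q₀, fun q hq => ?_⟩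
  have h4 := hq₀ q hq
  simp only [Function.comp] at h4
  rw [div_lt_div_iff₀ (by positivity) (by positivity)] at h4
  push_cast at h4
  have h5 : ((C * (m * (q + 1)) ^ K : ℕ) : ℝ) < ((2 ^ q : ℕ) : ℝ) := by
    push_cast
    rw [mul_pow]
    have h6 : (0 : ℝ) ≤ ((q : ℝ) + 1) ^ K := by positivity
    have h7 : (2 : ℝ) ^ (q + 1) = 2 * 2 ^ q := by ring
    rw [h7] at h4
    nlinarith
  exact_mod_cast h5

/-- **`f(G) = fc(G)`.** -/
theorem main {G : SimpleGraph V} (hG : G.Connected) :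
    Tendsto (fun n : ℕ => (cost G n : ℝ) / n) atTop (𝓝 (fc G)) := by
  set k := Fintype.card V with hk
  refine tendsto_order.2 ⟨fun x hx => ?_, fun x hx => ?_⟩
  · -- the lower bound
    obtain ⟨m, hm⟩ := exists_nat_gt (max 1 (fc G / (fc G - x)))
    have hm1 : (1 : ℝ) < m := lt_of_le_of_lt (le_max_left _ _) hm
    have hm2 : fc G / (fc G - x) < m := lt_of_le_of_lt (le_max_right _ _) hm
    have hm0 : 0 < m := by
      rcases Nat.eq_zero_or_pos m with h | h
      · rw [h] at hm1; norm_num at hm1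
      · exact h
    obtain ⟨q₀, hq₀⟩ := poly_lt_exp (Fintype.card (V × V)) (2 ^ k) m
    refine eventually_atTop.2 ⟨m * q₀ + 1, fun n hn => ?_⟩
    have hn0 : (0 : ℝ) < n := by
      have : 0 < n := by omega
      exact_mod_cast this
    set q := n / m with hq
    have hq' : q₀ ≤ q := by
      rw [hq, Nat.le_div_iff_mul_le hm0]
      rw [mul_comm]; omega
    have hqn : q ≤ n := Nat.div_le_self n m
    have hmq : n < m * (q + 1) := Nat.lt_mul_div_succ n hm0
    have hmq' : m * q ≤ n := Nat.mul_div_le n m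
    have ht : 2 ^ k * (2 ^ (n - q) * (n - q + 1) ^ (Fintype.card (V × V))) < 2 ^ n := by
      have h1 := hq₀ q hq'
      have h2 : (n - q + 1) ^ (Fintype.card (V × V)) ≤ (m * (q + 1)) ^ (Fintype.card (V × V)) :=
        Nat.pow_le_pow_left (by
          rcases Nat.eq_zero_or_pos q with h | h
          · omega
          · omega) _
      calc 2 ^ k * (2 ^ (n - q) * (n - q + 1) ^ (Fintype.card (V × V)))
          ≤ 2 ^ k * (2 ^ (n - q) * (m * (q + 1)) ^ (Fintype.card (V × V))) := by gcongr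
        _ = 2 ^ (n - q) * (2 ^ k * (m * (q + 1)) ^ (Fintype.card (V × V))) := by ring
        _ < 2 ^ (n - q) * 2 ^ q := Nat.mul_lt_mul_of_pos_left h1 (by positivity)
        _ = 2 ^ n := by rw [← pow_add]; congr 1; omega
    obtain ⟨P, hP⟩ := cost_spec hG n
    have hlow : fc G * ((n - q : ℕ) + 1) ≤ cost G n := by
      have h1 : fc G ≤ cost G n / ((n - q : ℕ) + 1) := by
        refine csSup_le ⟨_, _, zero_isPacking G, rfl⟩ ?_
        rintro t ⟨g, hg, rfl⟩
        rw [le_div_iff₀ (by positivity)]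
        exact lower_bound hP (n - q) ht g hg
      rwa [le_div_iff₀ (by positivity)] at h1
    have hfc := fc_nonneg G
    rw [lt_div_iff₀ hn0]
    have h5 : ((n - q : ℕ) : ℝ) = n - q := by rw [Nat.cast_sub hqn]
    have h6 : (q : ℝ) ≤ n / m := by
      rw [le_div_iff₀ (by linarith)]
      have : ((m * q : ℕ) : ℝ) ≤ n := by exact_mod_cast hmq'
      push_cast at this
      linarith
    have h7 : fc G / m < fc G - x := by
      rw [div_lt_iff₀ (by linarith)]
      rw [div_lt_iff₀ (by linarith)] at hm2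
      linarith
    rw [h5] at hlow
    have h8 : fc G * (n - n / m) ≤ cost G n := by
      refine le_trans ?_ hlow
      apply mul_le_mul_of_nonneg_left _ hfc
      linarith
    have h9 : fc G * (n - n / m) = (fc G - fc G / m) * n := by ring
    rw [h9] at h8
    have h10 : x * n < (fc G - fc G / m) * n := mul_lt_mul_of_pos_right (by linarith) hn0
    linarith
  · -- the upper bound
    have hd : 0 < x - fc G := by linarith
    obtain ⟨r, hr⟩ := exists_nat_gt (max (2 * k : ℝ) (((k : ℝ) ^ 2 + 2 * k * x) / (x - fc G)))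
    have hr1 : (2 * k : ℝ) < r := lt_of_le_of_lt (le_max_left _ _) hr
    have hr2 : ((k : ℝ) ^ 2 + 2 * k * x) / (x - fc G) < r := lt_of_le_of_lt (le_max_right _ _) hr
    have hr3 : (r * fc G + (k : ℝ) ^ 2) / (r - 2 * k) < x := by
      rw [div_lt_iff₀ (by linarith)]
      rw [div_lt_iff₀ hd] at hr2
      linarith
    obtain ⟨C, hC⟩ := upper_r hG r (by exact_mod_cast hr1)
    set ρ := (r * fc G + (k : ℝ) ^ 2) / (r - 2 * k) with hρ
    obtain ⟨N, hN⟩ := exists_nat_gt (C / (x - ρ))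
    refine eventually_atTop.2 ⟨max N 1, fun n hn => ?_⟩
    have hn1 : 1 ≤ n := le_trans (le_max_right _ _) hn
    have hnN : N ≤ n := le_trans (le_max_left _ _) hn
    have hn0 : (0 : ℝ) < n := by exact_mod_cast hn1
    obtain ⟨c, P, hP, hc⟩ := hC n
    have h1 : (cost G n : ℝ) ≤ c := by
      have : cost G n ≤ c := Nat.sInf_le ⟨P, hP⟩
      exact_mod_cast this
    rw [div_lt_iff₀ hn0]
    have h2 : C < (x - ρ) * n := by
      rw [div_lt_iff₀ (by linarith)] at hN
      have : (N : ℝ) ≤ n := by exact_mod_cast hnN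
      nlinarith
    linarith

end Pool.Agent.Q320.EqTest
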